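import Pool.Agent.H27F.Defs

/-!
# The algebra: a form on `ℝ` which is a coboundary on all sequences of geometric decay is bilinear
over the real algebraic numbers
-/

set_option autoImplicit false

namespace Pool.Agent.H27F

open Polynomial TensorProduct

section idem

variable {k M : Type*} [Field k] [Field M] [Algebra k M] [FiniteDimensional k M] [IsGalois k M]

/-- the elements `e g` of `M ⊗ M` on which `a ⊗ 1` acts as `1 ⊗ g a` -/
theorem exists_idem : ∃ e : (M ≃ₐ[k] M) → M ⊗[k] M, (∑ g, e g = 1) ∧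
    ∀ (g : M ≃ₐ[k] M) (a : M), (a ⊗ₜ[k] (1 : M)) * e g = ((1 : M) ⊗ₜ[k] (g a)) * e g := by
  classical
  obtain ⟨θ, hθ⟩ := Field.exists_primitive_element k M
  have htop : Algebra.adjoin k {θ} = ⊤ := by
    rw [← IntermediateField.adjoin_simple_toSubalgebra_of_isAlgebraic
      (Algebra.IsAlgebraic.isAlgebraic θ), hθ]
    rfl
  have hv : Function.Injective (fun g : M ≃ₐ[k] M => g θ) := by
    intro g h hgh
    ext a
    have ha : a ∈ Algebra.adjoin k {θ} := by rw [htop]; trivial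
    induction ha using Algebra.adjoin_induction with
    | mem x hx => rw [Set.mem_singleton_iff.mp hx]; exact hgh
    | algebraMap r => simp
    | add x y _ _ hx hy => rw [map_add, map_add, hx, hy]
    | mul x y _ _ hx hy => rw [map_mul, map_mul, hx, hy]
  let P : M[X] := ∏ h : (M ≃ₐ[k] M), (X - C (h θ))
  have hP : P ∈ Polynomial.lifts (algebraMap k M) := by
    rw [lifts_iff_coeff_lifts]
    intro n
    rw [IsGalois.mem_range_algebraMap_iff_fixed]
    intro σ
    have h1 : P.map (σ : M →+* M) = P := by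
      show (∏ h : (M ≃ₐ[k] M), (X - C (h θ))).map (σ : M →+* M) = _
      rw [Polynomial.map_prod]
      refine Fintype.prod_equiv (Equiv.mulLeft σ) _ _ fun h => ?_
      rw [Polynomial.map_sub, map_X, map_C]
      rfl
    have h2 := congrArg (fun q => q.coeff n) h1
    simp only [coeff_map] at h2
    exact h2
  obtain ⟨p, hp⟩ := hP
  have hp' : p.map (algebraMap k M) = P := hp
  have hpθ : aeval θ p = 0 := by
    rw [aeval_def, eval₂_eq_eval_map, hp']
    show eval θ (∏ h : (M ≃ₐ[k] M), (X - C (h θ))) = 0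
    rw [eval_prod]
    exact Finset.prod_eq_zero (Finset.mem_univ 1) (by simp)
  let φ : M →ₐ[k] M ⊗[k] M := Algebra.TensorProduct.includeRight
  let ψ : M →ₐ[k] M ⊗[k] M := Algebra.TensorProduct.includeLeft
  have hPz : eval₂ (φ : M →+* M ⊗[k] M) (ψ θ) P = 0 := by
    rw [← hp', eval₂_map]
    have h1 : (φ : M →+* M ⊗[k] M).comp (algebraMap k M) = algebraMap k (M ⊗[k] M) :=
      φ.comp_algebraMap
    rw [h1, ← aeval_def, aeval_algHom_apply ψ, hpθ, map_zero]
  let e : (M ≃ₐ[k] M) → M ⊗[k] M := fun g =>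
    eval₂ (φ : M →+* M ⊗[k] M) (ψ θ) (Lagrange.basis Finset.univ (fun g : M ≃ₐ[k] M => g θ) g)
  have hsum : ∑ g, e g = 1 := by
    show ∑ g, eval₂ (φ : M →+* M ⊗[k] M) (ψ θ) _ = 1
    rw [← eval₂_finsetSum, Lagrange.sum_basis hv.injOn Finset.univ_nonempty, eval₂_one]
  have key : ∀ g : M ≃ₐ[k] M, ψ θ * e g = φ (g θ) * e g := by
    intro g
    have h1 : ((X - C (g θ)) * Lagrange.basis Finset.univ (fun g : M ≃ₐ[k] M => g θ) g : M[X])
        = C (∏ j ∈ Finset.univ.erase g, (g θ - j θ)⁻¹) * P := by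
      show (X - C (g θ)) * ∏ j ∈ Finset.univ.erase g, Lagrange.basisDivisor (g θ) (j θ)
        = C (∏ j ∈ Finset.univ.erase g, (g θ - j θ)⁻¹) * ∏ h : (M ≃ₐ[k] M), (X - C (h θ))
      unfold Lagrange.basisDivisor
      rw [Finset.prod_mul_distrib, map_prod,
        ← Finset.mul_prod_erase Finset.univ (fun h : M ≃ₐ[k] M => (X - C (h θ) : M[X]))
          (Finset.mem_univ g)]
      ring
    have h2 := congrArg (eval₂ (φ : M →+* M ⊗[k] M) (ψ θ)) h1
    rw [eval₂_mul, eval₂_mul, hPz, mul_zero, eval₂_sub, eval₂_X, eval₂_C, sub_mul,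
      sub_eq_zero] at h2
    exact h2
  refine ⟨e, hsum, fun g a => ?_⟩
  show ψ a * e g = φ (g a) * e g
  have ha : a ∈ Algebra.adjoin k {θ} := by rw [htop]; trivial
  induction ha using Algebra.adjoin_induction with
  | mem x hx => rw [Set.mem_singleton_iff.mp hx]; exact key g
  | algebraMap r => rw [AlgHom.commutes, AlgEquiv.commutes, AlgHom.commutes]
  | add x y _ _ hx hy => rw [map_add, map_add, map_add, add_mul, add_mul, hx, hy]
  | mul x y _ _ hx hy =>
    rw [map_mul, map_mul, map_mul, mul_assoc, hy, mul_left_comm, hx]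
    ring

end idem

section small

variable {M : Type*} [Field M] [Algebra ℚ M] (ι : M →ₐ[ℚ] ℂ)

theorem exists_small (g : M ≃ₐ[ℚ] M) (a : M) (α : ℝ) (ha : ι a = α) (hga : g a ≠ a) :
    ∃ z : M, ‖ι z‖ < 1 ∧ 1 < ‖ι (g z)‖ := by
  by_contra hcon
  push Not at hcon
  have h1 : ∀ z, ‖ι (g z)‖ ≤ ‖ι z‖ := by
    intro z
    by_contra hz
    push Not at hz
    obtain ⟨q, hq1, hq2⟩ := exists_rat_btwn hz
    have hq0 : (0 : ℝ) < q := lt_of_le_of_lt (norm_nonneg _) hq1
    have hq : ‖ι (algebraMap ℚ M q⁻¹ * z)‖ < 1 := by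
      rw [map_mul, AlgHom.commutes, norm_mul, eq_ratCast, Rat.cast_inv, norm_inv,
        Complex.norm_ratCast, abs_of_pos hq0, inv_mul_lt_iff₀ hq0, mul_one]
      exact hq1
    have h2 := hcon _ hq
    rw [map_mul, AlgEquiv.commutes, map_mul, AlgHom.commutes, norm_mul, eq_ratCast, Rat.cast_inv,
      norm_inv, Complex.norm_ratCast, abs_of_pos hq0, inv_mul_le_iff₀ hq0, mul_one] at h2
    exact absurd hq2 (not_lt.mpr h2)
  have h2 : ∀ z, ‖ι (g z)‖ = ‖ι z‖ := by
    intro z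
    by_cases hz : z = 0
    · rw [hz, map_zero]
    refine le_antisymm (h1 z) ?_
    have h3 := h1 z⁻¹
    rw [map_inv₀, map_inv₀, map_inv₀, norm_inv, norm_inv] at h3
    have h4 : 0 < ‖ι (g z)‖ := by
      rw [norm_pos_iff]
      intro h
      apply hz
      apply g.injective
      apply ι.injective
      show ι (g z) = ι (g 0)
      rw [h, map_zero, map_zero]
    have h5 : 0 < ‖ι z‖ := by
      rw [norm_pos_iff]
      intro h
      apply hz
      apply ι.injective
      show ι z = ι 0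
      rw [h, map_zero]
    exact (inv_le_inv₀ h4 h5).mp h3
  have h3 := h2 a
  have h4 := h2 (a + 1)
  rw [map_add, map_add, map_add, map_one, map_one, ha] at h4
  rw [ha] at h3
  apply hga
  apply ι.injective
  show ι (g a) = ι a
  rw [ha]
  have h5 : Complex.normSq (ι (g a)) = α * α := by
    rw [Complex.normSq_eq_norm_sq, h3, ← Complex.normSq_eq_norm_sq, Complex.normSq_ofReal]
  have h6 : Complex.normSq (ι (g a) + 1) = (α + 1) * (α + 1) := by
    rw [Complex.normSq_eq_norm_sq, h4, ← Complex.normSq_eq_norm_sq]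
    have : ((α : ℂ) + 1) = ((α + 1 : ℝ) : ℂ) := by push_cast; ring
    rw [this, Complex.normSq_ofReal]
  rw [Complex.normSq_apply] at h5 h6
  simp only [Complex.add_re, Complex.one_re, Complex.add_im, Complex.one_im, add_zero] at h6
  have h7 : (ι (g a)).re = α := by linarith
  have h8 : (ι (g a)).im = 0 := by
    rw [h7] at h5
    have : (ι (g a)).im * (ι (g a)).im = 0 := by linarith
    exact mul_self_eq_zero.mp this
  exact Complex.ext (by simpa using h7) (by simpa using h8)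

end small

/-- biadditive maps are balanced over `ℚ` -/
theorem bal {M N A : Type*} [AddCommGroup M] [AddCommGroup N] [AddCommGroup A] [Module ℚ M]
    [Module ℚ N] (f : M →+ N →+ A) (r : ℚ) (m : M) (n : N) : f (r • m) n = f m (r • n) := by
  have hd : (r.den : ℚ) ≠ 0 := by exact_mod_cast r.den_nz
  have h1 : n = r.den • ((r.den : ℚ)⁻¹ • n) := by
    rw [← Nat.cast_smul_eq_nsmul ℚ, smul_smul, mul_inv_cancel₀ hd, one_smul]
  have h2 : r.den • (r • m) = r.num • m := by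
    rw [← Nat.cast_smul_eq_nsmul ℚ, ← Int.cast_smul_eq_zsmul ℚ, smul_smul, Rat.den_mul_eq_num]
  have h3 : r • n = r.num • ((r.den : ℚ)⁻¹ • n) := by
    rw [← Int.cast_smul_eq_zsmul ℚ, smul_smul, ← div_eq_mul_inv, Rat.num_div_den]
  rw [h3]
  conv_lhs => rw [h1]
  rw [map_nsmul, ← AddMonoidHom.nsmul_apply, ← map_nsmul, h2, map_zsmul, map_zsmul,
    AddMonoidHom.zsmul_apply]

section main

variable {M : Type*} [Field M] [Algebra ℚ M] (ι : M →ₐ[ℚ] ℂ)

/-- real parts -/
noncomputable def reM (x : ℝ) : M →+ ℝ where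
  toFun a := (ι a).re * x
  map_zero' := by simp
  map_add' a b := by rw [map_add, Complex.add_re, add_mul]

/-- the sequence of the real parts of `z ^ k * a` -/
noncomputable def sqM (z : M) (hz : ‖ι z‖ < 1) (x : ℝ) : M →+ Dec where
  toFun a := ⟨fun k => (ι (z ^ k * a)).re * x, by
    refine ⟨‖ι a‖ * |x|, max ‖ι z‖ (1 / 2), lt_max_of_lt_right (by norm_num),
      max_lt hz (by norm_num), fun k => ?_⟩
    rw [abs_mul, map_mul, map_pow]
    calc |(ι z ^ k * ι a).re| * |x| ≤ ‖ι z ^ k * ι a‖ * |x| := by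
          gcongr
          exact Complex.abs_re_le_norm _
      _ = ‖ι a‖ * |x| * ‖ι z‖ ^ k := by rw [norm_mul, norm_pow]; ring
      _ ≤ ‖ι a‖ * |x| * (max ‖ι z‖ (1 / 2)) ^ k := by
          gcongr
          exact le_max_left _ _⟩
  map_zero' := by
    apply Subtype.ext
    funext k
    show (ι (z ^ k * 0)).re * x = 0
    simp
  map_add' a b := by
    apply Subtype.ext
    funext k
    show (ι (z ^ k * (a + b))).re * x = (ι (z ^ k * a)).re * x + (ι (z ^ k * b)).re * x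
    rw [mul_add, map_add, Complex.add_re, add_mul]

theorem shL_sqM (z : M) (hz : ‖ι z‖ < 1) (x : ℝ) (a : M) :
    shL (sqM ι z hz x a) = sqM ι z hz x (z * a) := by
  apply Subtype.ext
  funext k
  show (ι (z ^ (k + 1) * a)).re * x = (ι (z ^ k * (z * a))).re * x
  rw [pow_succ, mul_assoc]

theorem sqM_zero (z : M) (hz : ‖ι z‖ < 1) (x : ℝ) (a : M) :
    (sqM ι z hz x a).1 0 = (ι a).re * x := by
  show (ι (z ^ 0 * a)).re * x = _
  rw [pow_zero, one_mul]

variable {A : Type*} [AddCommGroup A] (c : ℝ →+ ℝ →+ A) (F : Dec →+ Dec →+ A)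
    (hF : ∀ s t : Dec, F s t = c (s.1 0) (t.1 0) + F (shL s) (shL t)) (x y : ℝ)

/-- the form on `M ⊗ M` -/
noncomputable def beta : M ⊗[ℚ] M →+ A :=
  TensorProduct.liftAddHom ((c.comp (reM ι x)).compl₂ (reM ι y)) (bal _)

/-- the form on sequences, on `M ⊗ M` -/
noncomputable def gam (z z' : M) (hz : ‖ι z‖ < 1) (hz' : ‖ι z'‖ < 1) : M ⊗[ℚ] M →+ A :=
  TensorProduct.liftAddHom ((F.comp (sqM ι z hz x)).compl₂ (sqM ι z' hz' y)) (bal _)

include hF in
theorem gam_eq (z z' : M) (hz : ‖ι z‖ < 1) (hz' : ‖ι z'‖ < 1) (ρ : M ⊗[ℚ] M) :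
    gam ι F x y z z' hz hz' ρ
      = beta ι c x y ρ + gam ι F x y z z' hz hz' ((z ⊗ₜ z') * ρ) := by
  induction ρ using TensorProduct.induction_on with
  | zero => simp
  | add a b ha hb =>
    rw [map_add, map_add, mul_add, map_add, ha, hb]
    abel
  | tmul a b =>
    rw [Algebra.TensorProduct.tmul_mul_tmul]
    show F (sqM ι z hz x a) (sqM ι z' hz' y b) = c ((ι a).re * x) ((ι b).re * y)
      + F (sqM ι z hz x (z * a)) (sqM ι z' hz' y (z' * b))
    rw [hF, sqM_zero, sqM_zero, shL_sqM, shL_sqM]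

include hF in
theorem beta_zero [FiniteDimensional ℚ M] [IsGalois ℚ M] (a : M) (α : ℝ) (ha : ι a = α) :
    beta ι c x y (a ⊗ₜ 1) = beta ι c x y (1 ⊗ₜ a) := by
  classical
  obtain ⟨e, he1, he2⟩ := exists_idem (k := ℚ) (M := M)
  rw [← sub_eq_zero, ← map_sub]
  have h1 : (a ⊗ₜ[ℚ] (1 : M) - (1 : M) ⊗ₜ[ℚ] a) = ∑ g, (a ⊗ₜ[ℚ] (1 : M) - (1 : M) ⊗ₜ[ℚ] a) * e g := by
    rw [← Finset.mul_sum, he1, mul_one]
  rw [h1, map_sum]
  refine Finset.sum_eq_zero fun g _ => ?_
  by_cases hg : g a = a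
  · rw [sub_mul, he2 g a, hg, sub_self, map_zero]
  · obtain ⟨z, hz1, hz2⟩ := exists_small ι g a α ha hg
    have hgz : g z ≠ 0 := by
      intro h
      rw [h, map_zero, norm_zero] at hz2
      linarith
    have hz' : ‖ι (g z)⁻¹‖ < 1 := by
      rw [map_inv₀, norm_inv]
      exact inv_lt_one_of_one_lt₀ hz2
    have h2 : ∀ ρ, (z ⊗ₜ[ℚ] (g z)⁻¹) * (ρ * e g) = ρ * e g := by
      intro ρ
      have h3 : (z ⊗ₜ[ℚ] (g z)⁻¹) = ((1 : M) ⊗ₜ[ℚ] (g z)⁻¹) * (z ⊗ₜ[ℚ] (1 : M)) := by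
        rw [Algebra.TensorProduct.tmul_mul_tmul, one_mul, mul_one]
      have h4 : ((1 : M) ⊗ₜ[ℚ] (g z)⁻¹) * ((1 : M) ⊗ₜ[ℚ] (g z)) = 1 := by
        rw [Algebra.TensorProduct.tmul_mul_tmul, one_mul, inv_mul_cancel₀ hgz]
        rfl
      rw [mul_left_comm, h3, mul_assoc, he2 g z, ← mul_assoc _ _ (e g), h4, one_mul]
    have h5 := gam_eq ι c F hF x y z (g z)⁻¹ hz1 hz'
      ((a ⊗ₜ[ℚ] (1 : M) - (1 : M) ⊗ₜ[ℚ] a) * e g)
    rw [h2] at h5
    exact (left_eq_add.mp (by rw [add_comm] at h5; exact h5))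

end main

theorem alg_aux {M : Type*} [Field M] [Algebra ℚ M] (p : ℚ[X]) [IsSplittingField ℚ M p]
    (hsep : p.Separable) {A : Type*} [AddCommGroup A] (c : ℝ →+ ℝ →+ A) (F : Dec →+ Dec →+ A)
    (hF : ∀ s t : Dec, F s t = c (s.1 0) (t.1 0) + F (shL s) (shL t))
    (α : ℝ) (h1 : (α : ℂ) ∈ p.rootSet ℂ) (x y : ℝ) : c (α * x) y = c x (α * y) := by
  have hfin : FiniteDimensional ℚ M := IsSplittingField.finiteDimensional M p
  have hG : IsGalois ℚ M := IsGalois.of_separable_splitting_field hsep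
  let ι : M →ₐ[ℚ] ℂ := IsAlgClosed.lift
  rw [← (IsSplittingField.splits M p).image_rootSet ι] at h1
  obtain ⟨a, _, ha⟩ := h1
  have h2 := beta_zero ι c F hF x y a α ha
  have h3 : beta ι c x y (a ⊗ₜ 1) = c ((ι a).re * x) ((ι 1).re * y) := rfl
  have h4 : beta ι c x y (1 ⊗ₜ a) = c ((ι 1).re * x) ((ι a).re * y) := rfl
  have h5 : (ι a).re = α := by rw [ha, Complex.ofReal_re]
  have h6 : (ι 1).re = 1 := by rw [map_one, Complex.one_re]
  rw [h3, h4, h5, h6, one_mul, one_mul] at h2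
  exact h2

theorem exists_sf {k : Type} [Field k] (p : k[X]) :
    ∃ (M : Type) (_ : Field M) (_ : Algebra k M), IsSplittingField k M p :=
  ⟨p.SplittingField, inferInstance, inferInstance, inferInstance⟩

theorem alg_main {A : Type*} [AddCommGroup A] (c : ℝ →+ ℝ →+ A) (F : Dec →+ Dec →+ A)
    (hF : ∀ s t : Dec, F s t = c (s.1 0) (t.1 0) + F (shL s) (shL t))
    (α : ℝ) (hα : IsAlgebraic ℚ α) (x y : ℝ) : c (α * x) y = c x (α * y) := by
  have hαC : IsAlgebraic ℚ (α : ℂ) := by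
    have := hα.algebraMap (A := ℂ)
    exact this
  have hsep : (minpoly ℚ (α : ℂ)).Separable := (minpoly.irreducible hαC.isIntegral).separable
  obtain ⟨M, _, _, hM⟩ := exists_sf (minpoly ℚ (α : ℂ))
  refine alg_aux (M := M) (minpoly ℚ (α : ℂ)) hsep c F hF α ?_ x y
  rw [mem_rootSet]
  exact ⟨minpoly.ne_zero hαC.isIntegral, minpoly.aeval _ _⟩

end Pool.Agent.H27F
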