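import Pool.Agent.H75T.Group
import Pool.Agent.H75T.Plane

/-!
# Infinite products of small elements of a smooth flow: definitions
-/

set_option autoImplicit false

open scoped ContDiff commutatorElement
open Pool.Agent.H45F Pool.Agent.H75T

namespace Pool.Agent.H27F

/-- real sequences of geometric decay -/
def Dec : AddSubgroup (ℕ → ℝ) where
  carrier := {s | ∃ C r : ℝ, 0 < r ∧ r < 1 ∧ ∀ k, |s k| ≤ C * r ^ k}
  add_mem' := by
    rintro s t ⟨C, r, hr, hr1, h⟩ ⟨D, q, hq, hq1, h'⟩
    refine ⟨C + D, max r q, lt_max_of_lt_left hr, max_lt hr1 hq1, fun k => ?_⟩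
    have hC : 0 ≤ C := by
      have := h 0; simp only [pow_zero, mul_one] at this; exact le_trans (abs_nonneg _) this
    have hD : 0 ≤ D := by
      have := h' 0; simp only [pow_zero, mul_one] at this; exact le_trans (abs_nonneg _) this
    calc |(s + t) k| ≤ |s k| + |t k| := abs_add_le _ _
      _ ≤ C * r ^ k + D * q ^ k := add_le_add (h k) (h' k)
      _ ≤ C * (max r q) ^ k + D * (max r q) ^ k := by
        gcongr
        · exact le_max_left _ _
        · exact le_max_right _ _
      _ = (C + D) * (max r q) ^ k := by ring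
  zero_mem' := ⟨0, 1 / 2, by norm_num, by norm_num, fun k => by simp⟩
  neg_mem' := by
    rintro s ⟨C, r, hr, hr1, h⟩
    exact ⟨C, r, hr, hr1, fun k => by simpa using h k⟩

theorem mem_Dec {s : ℕ → ℝ} :
    s ∈ Dec ↔ ∃ C r : ℝ, 0 < r ∧ r < 1 ∧ ∀ k, |s k| ≤ C * r ^ k := Iff.rfl

/-- left shift -/
def shL : Dec →+ Dec where
  toFun s := ⟨fun k => s.1 (k + 1), by
    obtain ⟨C, r, hr, hr1, h⟩ := s.2
    refine ⟨C * r, r, hr, hr1, fun k => ?_⟩
    have := h (k + 1)
    rwa [pow_succ, ← mul_assoc, mul_right_comm] at this⟩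
  map_zero' := rfl
  map_add' _ _ := rfl

/-- right shift -/
def shR : Dec →+ Dec where
  toFun s := ⟨fun k => if k = 0 then 0 else s.1 (k - 1), by
    obtain ⟨C, r, hr, hr1, h⟩ := s.2
    have hC : 0 ≤ C := by
      have := h 0; simp only [pow_zero, mul_one] at this; exact le_trans (abs_nonneg _) this
    refine ⟨C / r, r, hr, hr1, fun k => ?_⟩
    rcases k with _ | k
    · simp only [if_true, abs_zero, pow_zero, mul_one]; positivity
    · have := h k
      have e : C / r * r ^ (k + 1) = C * r ^ k := by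
        rw [pow_succ]; field_simp
      rw [e]
      simpa using this⟩
  map_zero' := by
    ext k; simp
  map_add' s t := by
    ext k
    by_cases hk : k = 0 <;> simp [hk]

/-- the sequence `(x, 0, 0, ...)` -/
def one0 : ℝ →+ Dec where
  toFun x := ⟨fun k => if k = 0 then x else 0, by
    refine ⟨|x|, 1 / 2, by norm_num, by norm_num, fun k => ?_⟩
    rcases k with _ | k
    · simp
    · simp only [Nat.succ_ne_zero, if_false, abs_zero]; positivity⟩
  map_zero' := by
    ext k; simp
  map_add' s t := by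
    ext k
    by_cases hk : k = 0 <;> simp [hk]

@[simp] theorem shL_apply (s : Dec) (k : ℕ) : (shL s).1 k = s.1 (k + 1) := rfl
@[simp] theorem shR_zero (s : Dec) : (shR s).1 0 = 0 := rfl
@[simp] theorem shR_succ (s : Dec) (k : ℕ) : (shR s).1 (k + 1) = s.1 k := rfl
@[simp] theorem one0_zero (x : ℝ) : (one0 x).1 0 = x := rfl
@[simp] theorem one0_succ (x : ℝ) (k : ℕ) : (one0 x).1 (k + 1) = 0 := rfl

theorem decomp (s : Dec) : s = one0 (s.1 0) + shR (shL s) := by
  apply Subtype.ext
  funext k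
  rcases k with _ | k
  · change s.1 0 = s.1 0 + 0; rw [add_zero]
  · change s.1 (k + 1) = 0 + s.1 (k + 1); rw [zero_add]

/-- a smooth flow of the plane, supported in the disc with center `1/2` and radius `1/4` -/
structure NFlow (φ : ℝ → ℂ → ℂ) : Prop where
  smooth : ContDiff ℝ ∞ (fun q : ℝ × ℂ => φ q.1 q.2)
  zero : ∀ z, φ 0 z = z
  add : ∀ s t z, φ (s + t) z = φ s (φ t z)
  supp : ∀ t z, 1 / 4 ≤ ‖z - 1 / 2‖ → φ t z = z

/-- displacement of the flow in the coordinate `1 / z` -/
noncomputable def Dl (φ : ℝ → ℂ → ℂ) (s : ℝ) (w : ℂ) : ℂ := (φ s w⁻¹)⁻¹ - w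

/-- the product of translated copies of the flow in the coordinate `1 / z` -/
noncomputable def W (φ : ℝ → ℂ → ℂ) (s : ℕ → ℝ) (w : ℂ) : ℂ :=
  w + ∑' k : ℕ, Dl φ (s k) (w - 4 * k)

end Pool.Agent.H27F
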