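import Pool.Agent.H27F.Defs

/-!
# A compactly supported diffeomorphism which is a parabolic Moebius map on a disc
-/

set_option autoImplicit false

open scoped ContDiff NNReal
open Pool.Agent.H45F Pool.Agent.H75T

namespace Pool.Agent.H27F

/-- the cut-off quadratic function -/
theorem exists_cut : ∃ (w : ℂ → ℂ) (L : ℝ≥0), ContDiff ℝ ∞ w ∧ LipschitzWith L w ∧
    (∀ z, ‖z‖ ≤ 1 → w z = z ^ 2) ∧ (∀ z, 2 ≤ ‖z‖ → w z = 0) ∧ ∀ z, ‖w z‖ ≤ 4 := by
  let ρ : ContDiffBump (0 : ℂ) := ⟨1, 2, by norm_num, by norm_num⟩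
  have h1 : ContDiff ℝ ∞ (fun z : ℂ => ((ρ z : ℝ) : ℂ) * z ^ 2) :=
    (Complex.ofRealCLM.contDiff.comp ρ.contDiff).mul (contDiff_id.pow 2)
  have h2 : ∀ z : ℂ, 2 ≤ ‖z‖ → ((ρ z : ℝ) : ℂ) * z ^ 2 = 0 := by
    intro z hz
    have : ρ z = 0 := ρ.zero_of_le_dist (by simpa using hz)
    rw [this]
    simp
  have h3 : HasCompactSupport (fun z : ℂ => ((ρ z : ℝ) : ℂ) * z ^ 2) := by
    refine HasCompactSupport.intro (isCompact_closedBall (0 : ℂ) 2) fun z hz => ?_
    apply h2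
    rw [Metric.mem_closedBall, not_le, dist_zero_right] at hz
    exact hz.le
  obtain ⟨L, hL⟩ := (h1.of_le (by norm_num : (1 : WithTop ℕ∞) ≤ ∞)).lipschitzWith_of_hasCompactSupport h3
    (by norm_num)
  refine ⟨_, L, h1, hL, ?_, h2, ?_⟩
  · intro z hz
    have : ρ z = 1 := ρ.one_of_mem_closedBall (by simpa using hz)
    simp only [this]
    simp
  · intro z
    by_cases hz : 2 ≤ ‖z‖
    · rw [h2 z hz]
      simp
    · rw [norm_mul, norm_pow, Complex.norm_real, Real.norm_eq_abs, abs_of_nonneg ρ.nonneg]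
      have h4 : ρ z ≤ 1 := ρ.le_one
      have h5 : 0 ≤ ρ z := ρ.nonneg
      push Not at hz
      have h6 : ‖z‖ ^ 2 ≤ 4 := by nlinarith [norm_nonneg z]
      nlinarith [sq_nonneg ‖z‖]

theorem denom_ge {e : ℝ} (he : 0 ≤ e) (he1 : e ≤ 1 / 4) {z : ℂ} (hz : ‖z‖ ≤ 2) :
    1 / 2 ≤ ‖1 + (e : ℂ) * z‖ := by
  have h1 : ‖(e : ℂ) * z‖ ≤ 1 / 2 := by
    rw [norm_mul, Complex.norm_real, Real.norm_eq_abs, abs_of_nonneg he]
    nlinarith [norm_nonneg z]
  have h2 : ‖(1 : ℂ)‖ - ‖(e : ℂ) * z‖ ≤ ‖1 + (e : ℂ) * z‖ := by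
    have := norm_sub_norm_le (1 : ℂ) (-((e : ℂ) * z))
    rwa [norm_neg, sub_neg_eq_add] at this
  rw [norm_one] at h2
  linarith

/-- the small parabolic steps -/
theorem exists_step : ∃ C : ℝ, 0 < C ∧ ∀ e : ℝ, 0 ≤ e → e ≤ 1 / 4 → e * C < 1 →
    ∃ g : Equiv.Perm ℂ, g ∈ DiffC ∧ ∀ z : ℂ, ‖z‖ ≤ 1 → g z = z / (1 + (e : ℂ) * z) := by
  obtain ⟨w, L, hw, hL, hw1, hw2, hw3⟩ := exists_cut
  refine ⟨2 * L + 4, by positivity, fun e he he1 heC => ?_⟩
  set v : ℂ → ℂ := fun z => (1 + (e : ℂ) * z)⁻¹ with hv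
  have hv1 : ∀ z : ℂ, ‖z‖ ≤ 2 → ‖v z‖ ≤ 2 := by
    intro z hz
    have h1 := denom_ge he he1 hz
    rw [hv]
    simp only
    rw [norm_inv]
    have h2 : (0 : ℝ) < 1 / 2 := by norm_num
    calc ‖1 + (e : ℂ) * z‖⁻¹ ≤ (1 / 2 : ℝ)⁻¹ := inv_anti₀ h2 h1
      _ = 2 := by norm_num
  have hne : ∀ z : ℂ, ‖z‖ ≤ 2 → 1 + (e : ℂ) * z ≠ 0 := by
    intro z hz h0
    have h1 := denom_ge he he1 hz
    rw [h0, norm_zero] at h1
    norm_num at h1
  have hv2 : ∀ z z' : ℂ, ‖z‖ ≤ 2 → ‖z'‖ ≤ 2 → ‖v z - v z'‖ ≤ ‖z - z'‖ := by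
    intro z z' hz hz'
    have h1 := hne z hz
    have h2 := hne z' hz'
    have h3 : v z - v z' = (e : ℂ) * (z' - z) * (v z * v z') := by
      rw [hv]
      simp only
      field_simp
      ring
    rw [h3, norm_mul, norm_mul, norm_mul, Complex.norm_real, Real.norm_eq_abs, abs_of_nonneg he,
      norm_sub_rev z' z]
    have h4 : ‖v z‖ * ‖v z'‖ ≤ 2 * 2 :=
      mul_le_mul (hv1 z hz) (hv1 z' hz') (norm_nonneg _) (by norm_num)
    have h5 : e * ‖z - z'‖ * (‖v z‖ * ‖v z'‖) ≤ e * ‖z - z'‖ * (2 * 2) :=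
      mul_le_mul_of_nonneg_left h4 (mul_nonneg he (norm_nonneg _))
    have h6 : e * ‖z - z'‖ ≤ 1 / 4 * ‖z - z'‖ := mul_le_mul_of_nonneg_right he1 (norm_nonneg _)
    nlinarith
  -- the function
  set f : ℂ → ℂ := fun z => w z * v z with hf
  have hfs : ContDiff ℝ ∞ f := by
    rw [contDiff_iff_contDiffAt]
    intro z
    by_cases hz : ‖z‖ < 4
    · have h1 : 1 + (e : ℂ) * z ≠ 0 := by
        intro h0
        have h2 : ‖(e : ℂ) * z‖ = 1 := by
          have : (e : ℂ) * z = -1 := by linear_combination h0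
          rw [this, norm_neg, norm_one]
        rw [norm_mul, Complex.norm_real, Real.norm_eq_abs, abs_of_nonneg he] at h2
        nlinarith [norm_nonneg z]
      refine hw.contDiffAt.mul ?_
      refine ContDiffAt.inv ?_ h1
      exact contDiffAt_const.add (contDiffAt_const.mul contDiffAt_id)
    · push Not at hz
      have h1 : f =ᶠ[nhds z] fun _ => 0 := by
        have h2 : {y : ℂ | 2 < ‖y‖} ∈ nhds z :=
          (isOpen_lt continuous_const continuous_norm).mem_nhds (by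
            show (2 : ℝ) < ‖z‖
            linarith)
        filter_upwards [h2] with y hy
        rw [hf]
        simp only
        rw [hw2 y (le_of_lt hy), zero_mul]
      exact contDiffAt_const.congr_of_eventuallyEq h1
  have key : ∀ z z' : ℂ, ‖z‖ ≤ 2 → ‖f z - f z'‖ ≤ (2 * L + 4) * ‖z - z'‖ := by
    intro z z' hz
    have h1 : f z - f z' = (w z - w z') * v z + w z' * (v z - v z') := by
      rw [hf]
      simp only
      ring
    have h2 : ‖(w z - w z') * v z‖ ≤ 2 * L * ‖z - z'‖ := by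
      rw [norm_mul]
      have h3 : ‖w z - w z'‖ ≤ L * ‖z - z'‖ := by
        have := hL.dist_le_mul z z'
        rwa [dist_eq_norm, dist_eq_norm] at this
      calc ‖w z - w z'‖ * ‖v z‖ ≤ (L * ‖z - z'‖) * 2 :=
            mul_le_mul h3 (hv1 z hz) (norm_nonneg _) (by positivity)
        _ = 2 * L * ‖z - z'‖ := by ring
    have h4 : ‖w z' * (v z - v z')‖ ≤ 4 * ‖z - z'‖ := by
      by_cases hz' : ‖z'‖ ≤ 2
      · rw [norm_mul]
        exact mul_le_mul (hw3 z') (hv2 z z' hz hz') (norm_nonneg _) (by norm_num)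
      · push Not at hz'
        rw [hw2 z' hz'.le, zero_mul, norm_zero]
        positivity
    rw [h1]
    calc ‖(w z - w z') * v z + w z' * (v z - v z')‖ ≤ _ := norm_add_le _ _
      _ ≤ 2 * L * ‖z - z'‖ + 4 * ‖z - z'‖ := add_le_add h2 h4
      _ = (2 * L + 4) * ‖z - z'‖ := by ring
  have key2 : ∀ z z' : ℂ, ‖f z - f z'‖ ≤ (2 * L + 4) * ‖z - z'‖ := by
    intro z z'
    by_cases hz : ‖z‖ ≤ 2
    · exact key z z' hz
    · by_cases hz' : ‖z'‖ ≤ 2
      · rw [norm_sub_rev, norm_sub_rev z z']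
        exact key z' z hz'
      · push Not at hz hz'
        have h1 : f z = 0 := by rw [hf]; simp only; rw [hw2 z hz.le, zero_mul]
        have h2 : f z' = 0 := by rw [hf]; simp only; rw [hw2 z' hz'.le, zero_mul]
        rw [h1, h2, sub_zero, norm_zero]
        positivity
  have heC' : e * (2 * L + 4) < 1 := heC
  obtain ⟨g, hg, hg'⟩ := exists_diffC_of_lipschitz (fun z => -((e : ℂ) * f z))
    ((contDiff_const.mul hfs).neg) (Real.toNNReal (e * (2 * L + 4)))
    (by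
      rw [Real.toNNReal_lt_one]
      exact heC')
    (by
      refine LipschitzWith.of_dist_le_mul fun z z' => ?_
      rw [dist_eq_norm, dist_eq_norm, Real.coe_toNNReal _ (by positivity)]
      have h1 : -((e : ℂ) * f z) - -((e : ℂ) * f z') = -((e : ℂ) * (f z - f z')) := by ring
      rw [h1, norm_neg, norm_mul, Complex.norm_real, Real.norm_eq_abs, abs_of_nonneg he, mul_assoc]
      exact mul_le_mul_of_nonneg_left (key2 z z') he)
    2 (by
      intro z hz
      rw [hf]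
      simp only
      rw [hw2 z hz, zero_mul, mul_zero, neg_zero])
  refine ⟨g, hg, fun z hz => ?_⟩
  rw [hg' z, hf, hv]
  simp only
  rw [hw1 z hz]
  have h1 := mul_inv_cancel₀ (hne z (by linarith))
  rw [div_eq_mul_inv]
  linear_combination (-z) * h1

theorem exists_shift4 : ∃ h : DiffC, ∀ z : ℂ, 1 < (z⁻¹).re →
    (h : Equiv.Perm ℂ) z = (z⁻¹ + 4)⁻¹ := by
  obtain ⟨C, hC, hstep⟩ := exists_step
  obtain ⟨m, hm⟩ := exists_nat_gt (4 * C + 16)
  have hm0 : (0 : ℝ) < m := by linarith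
  obtain ⟨g, hg, hg'⟩ := hstep (4 / m) (by positivity)
    (by rw [div_le_iff₀ hm0]; linarith)
    (by rw [div_mul_eq_mul_div, div_lt_iff₀ hm0]; linarith)
  have hiter : ∀ (k : ℕ) (z : ℂ), 1 < (z⁻¹).re →
      (g ^ k) z = (z⁻¹ + (k : ℂ) * ((4 / m : ℝ) : ℂ))⁻¹ := by
    intro k
    induction k with
    | zero =>
      intro z _
      simp
    | succ k ih =>
      intro z hz
      rw [pow_succ', Equiv.Perm.mul_apply, ih z hz]
      set y : ℂ := z⁻¹ + (k : ℂ) * ((4 / m : ℝ) : ℂ) with hy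
      have hre : 1 < y.re := by
        rw [hy, Complex.add_re]
        have : ((k : ℂ) * ((4 / m : ℝ) : ℂ)).re = k * (4 / m) := by
          rw [← Complex.ofReal_natCast, ← Complex.ofReal_mul, Complex.ofReal_re]
        rw [this]
        have : (0 : ℝ) ≤ k * (4 / m) := by positivity
        linarith
      have hy0 : y ≠ 0 := by
        rintro h0
        rw [h0, Complex.zero_re] at hre
        linarith
      have hyn : ‖y⁻¹‖ ≤ 1 := by
        rw [norm_inv]
        apply inv_le_one_of_one_le₀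
        exact hre.le.trans (Complex.re_le_norm y)
      rw [hg' _ hyn]
      have h1 : z⁻¹ + ((k + 1 : ℕ) : ℂ) * ((4 / m : ℝ) : ℂ) = y + ((4 / m : ℝ) : ℂ) := by
        rw [hy]
        push_cast
        ring
      rw [h1]
      have h2 : y + ((4 / m : ℝ) : ℂ) ≠ 0 := by
        intro h0
        have h3 : (y + ((4 / m : ℝ) : ℂ)).re = 0 := by rw [h0, Complex.zero_re]
        rw [Complex.add_re, Complex.ofReal_re] at h3
        have : (0 : ℝ) < 4 / m := by positivity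
        linarith
      have h4 : 1 + ((4 / m : ℝ) : ℂ) * y⁻¹ = (y + ((4 / m : ℝ) : ℂ)) * y⁻¹ := by
        rw [add_mul, mul_inv_cancel₀ hy0]
      rw [h4, div_mul_eq_div_div_swap, div_self (inv_ne_zero hy0), one_div]
  refine ⟨⟨g, hg⟩ ^ m, fun z hz => ?_⟩
  have h1 : (((⟨g, hg⟩ : DiffC) ^ m : DiffC) : Equiv.Perm ℂ) = g ^ m := rfl
  rw [h1, hiter m z hz]
  have h2 : (m : ℂ) * ((4 / m : ℝ) : ℂ) = 4 := by
    have : (m : ℂ) ≠ 0 := by
      exact_mod_cast hm0.ne'
    push_cast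
    field_simp
  rw [h2]

/-- the similarity `z ↦ b + r z` -/
noncomputable def simP (r : ℝ) (hr : r ≠ 0) (b : ℂ) : Equiv.Perm ℂ where
  toFun z := b + r * z
  invFun z := (z - b) / r
  left_inv z := by
    have : (r : ℂ) ≠ 0 := by exact_mod_cast hr
    simp only
    field_simp
    ring
  right_inv z := by
    have : (r : ℂ) ≠ 0 := by exact_mod_cast hr
    simp only
    field_simp
    ring

theorem simP_conj_smooth (r : ℝ) (hr : r ≠ 0) (b : ℂ) {f : Equiv.Perm ℂ}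
    (hf : ContDiff ℝ ∞ (fun z => f z)) :
    ContDiff ℝ ∞ (fun z => (simP r hr b * f * (simP r hr b)⁻¹) z) := by
  have h1 : ContDiff ℝ ∞ (fun z : ℂ => (z - b) / r) := (contDiff_id.sub contDiff_const).div_const _
  exact contDiff_const.add (contDiff_const.mul (hf.comp h1))

theorem simP_conj_mem (r : ℝ) (hr : 0 < r) (b : ℂ) {f : Equiv.Perm ℂ} (hf : f ∈ DiffC) :
    simP r hr.ne' b * f * (simP r hr.ne' b)⁻¹ ∈ DiffC := by
  obtain ⟨h1, h2, R, hR⟩ := hf
  refine ⟨simP_conj_smooth r hr.ne' b h1, ?_, r * |R| + ‖b‖, fun z hz => ?_⟩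
  · have h3 := simP_conj_smooth r hr.ne' b (f := f⁻¹) h2
    have h4 : (simP r hr.ne' b * f * (simP r hr.ne' b)⁻¹)⁻¹ =
        simP r hr.ne' b * f⁻¹ * (simP r hr.ne' b)⁻¹ := by group
    have h5 : (fun z => (simP r hr.ne' b * f * (simP r hr.ne' b)⁻¹).symm z) =
        fun z => (simP r hr.ne' b * f⁻¹ * (simP r hr.ne' b)⁻¹) z := by
      funext z
      rw [← h4]
      rfl
    rw [h5]
    exact h3
  · rw [Equiv.Perm.mul_apply, Equiv.Perm.mul_apply]
    have h3 : R ≤ ‖(simP r hr.ne' b)⁻¹ z‖ := by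
      show R ≤ ‖(z - b) / r‖
      rw [norm_div, Complex.norm_real, Real.norm_eq_abs, abs_of_pos hr, le_div_iff₀ hr]
      have h4 : ‖z‖ - ‖b‖ ≤ ‖z - b‖ := norm_sub_norm_le z b
      have h5 : R * r ≤ |R| * r := mul_le_mul_of_nonneg_right (le_abs_self R) hr.le
      linarith
    rw [hR _ h3]
    exact (simP r hr.ne' b).apply_symm_apply z

/-- conjugation by a similarity is an automorphism of `DiffC` -/
theorem exists_conj_similarity (r : ℝ) (hr : 0 < r) (b : ℂ) :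
    ∃ θ : DiffC →* DiffC, Function.Bijective θ ∧ ∀ (g : DiffC) (z : ℂ),
      (θ g : Equiv.Perm ℂ) (b + r * z) = b + r * (g : Equiv.Perm ℂ) z := by
  have hinv : (simP r hr.ne' b)⁻¹ = simP r⁻¹ (inv_pos.2 hr).ne' (-b / r) := by
    have hr0 : (r : ℂ) ≠ 0 := by exact_mod_cast hr.ne'
    ext z
    show (z - b) / r = -b / r + ((r⁻¹ : ℝ) : ℂ) * z
    push_cast
    field_simp
    ring
  have hinv' : simP r hr.ne' b = (simP r⁻¹ (inv_pos.2 hr).ne' (-b / r))⁻¹ := by
    rw [← hinv, inv_inv]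
  let θ : DiffC →* DiffC :=
    { toFun := fun g => ⟨simP r hr.ne' b * g * (simP r hr.ne' b)⁻¹, simP_conj_mem r hr b g.2⟩
      map_one' := by
        apply Subtype.ext
        show simP r hr.ne' b * 1 * (simP r hr.ne' b)⁻¹ = 1
        group
      map_mul' := by
        intro x y
        apply Subtype.ext
        show simP r hr.ne' b * ((x : Equiv.Perm ℂ) * y) * (simP r hr.ne' b)⁻¹ =
          (simP r hr.ne' b * x * (simP r hr.ne' b)⁻¹) * (simP r hr.ne' b * y * (simP r hr.ne' b)⁻¹)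
        group }
  refine ⟨θ, ⟨?_, ?_⟩, ?_⟩
  · intro x y hxy
    have h1 : simP r hr.ne' b * (x : Equiv.Perm ℂ) * (simP r hr.ne' b)⁻¹ =
        simP r hr.ne' b * y * (simP r hr.ne' b)⁻¹ := congrArg Subtype.val hxy
    apply Subtype.ext
    exact mul_left_cancel (mul_right_cancel h1)
  · intro y
    have h1 := simP_conj_mem r⁻¹ (inv_pos.2 hr) (-b / r) y.2
    rw [← hinv'] at h1
    refine ⟨⟨_, h1⟩, ?_⟩
    apply Subtype.ext
    show simP r hr.ne' b * (simP r⁻¹ (inv_pos.2 hr).ne' (-b / r) * (y : Equiv.Perm ℂ) *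
      simP r hr.ne' b) * (simP r hr.ne' b)⁻¹ = y
    rw [← hinv]
    group
  · intro g z
    show simP r hr.ne' b ((g : Equiv.Perm ℂ) ((simP r hr.ne' b)⁻¹ (b + r * z))) = _
    have h1 : (simP r hr.ne' b)⁻¹ (b + r * z) = z := (simP r hr.ne' b).symm_apply_apply z
    rw [h1]
    rfl

end Pool.Agent.H27F
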