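import Pool.Agent.H27F.Sum
import Pool.Agent.H27F.Shift
import Pool.Agent.H75T.Form

/-!
# The commutator pairing on sequences
-/

set_option autoImplicit false

open scoped ContDiff commutatorElement
open Pool.Agent.H45F Pool.Agent.H75T

namespace Pool.Agent.H27F

theorem comm_mul_left {E : Type*} [Group E] {x x' y : E} (h : ⁅x', y⁆ ∈ Subgroup.center E) :
    ⁅x * x', y⁆ = ⁅x, y⁆ * ⁅x', y⁆ := by
  have h1 : ⁅x * x', y⁆ = x * ⁅x', y⁆ * x⁻¹ * ⁅x, y⁆ := by
    simp only [commutatorElement_def]; group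
  rw [h1, Subgroup.mem_center_iff.mp h x, mul_inv_cancel_right]
  exact (Subgroup.mem_center_iff.mp h _).symm

theorem comm_mul_right {E : Type*} [Group E] {x y y' : E} (h : ⁅x, y'⁆ ∈ Subgroup.center E) :
    ⁅x, y * y'⁆ = ⁅x, y⁆ * ⁅x, y'⁆ := by
  have h1 : ⁅x, y * y'⁆ = ⁅x, y⁆ * (y * ⁅x, y'⁆ * y⁻¹) := by
    simp only [commutatorElement_def]; group
  rw [h1, Subgroup.mem_center_iff.mp h y, mul_inv_cancel_right]

section Core

variable {E : Type*} [Group E] (p : E →* DiffC) (hp : Function.Surjective p)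
  (hc : p.ker ≤ Subgroup.center E) {φ ψ : ℝ → ℂ → ℂ} (hφ : NFlow φ) (hψ : NFlow ψ)
  (hcomm : ∀ s t z, φ s (ψ t z) = ψ t (φ s z))

/-- the lifted sequence element -/
noncomputable def lf {φ : ℝ → ℂ → ℂ} (hφ : NFlow φ) (s : Dec) : E :=
  lft p hp (sumFlow hφ (Multiplicative.ofAdd s))

theorem p_lf {φ : ℝ → ℂ → ℂ} (hφ : NFlow φ) (s : Dec) :
    p (lf p hp hφ s) = sumFlow hφ (Multiplicative.ofAdd s) := p_lft p hp _

include hc hcomm in
theorem lf_mem (s t : Dec) : ⁅lf p hp hφ s, lf p hp hψ t⁆ ∈ Subgroup.center E := by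
  refine hc (comm_mem p hc ?_)
  rw [p_lf, p_lf]
  exact sumFlow_comm hφ hψ hcomm s t

include hc hcomm in
theorem lf_add_left (s s' t : Dec) : ⁅lf p hp hφ (s + s'), lf p hp hψ t⁆ =
    ⁅lf p hp hφ s, lf p hp hψ t⁆ * ⁅lf p hp hφ s', lf p hp hψ t⁆ := by
  rw [← comm_mul_left (lf_mem p hp hc hφ hψ hcomm s' t)]
  refine commutator_eq_of p hc ?_ rfl
  rw [map_mul, p_lf, p_lf, p_lf, ofAdd_add, map_mul]

include hc hcomm in
theorem lf_add_right (s t t' : Dec) : ⁅lf p hp hφ s, lf p hp hψ (t + t')⁆ =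
    ⁅lf p hp hφ s, lf p hp hψ t⁆ * ⁅lf p hp hφ s, lf p hp hψ t'⁆ := by
  rw [← comm_mul_right (lf_mem p hp hc hφ hψ hcomm s t')]
  refine commutator_eq_of p hc rfl ?_
  rw [map_mul, p_lf, p_lf, p_lf, ofAdd_add, map_mul]

/-- the pairing on sequences -/
noncomputable def pairF : Dec →+ Dec →+ Additive (Subgroup.center E) :=
  AddMonoidHom.mk' (fun s => AddMonoidHom.mk'
    (fun t => Additive.ofMul ⟨_, lf_mem p hp hc hφ hψ hcomm s t⟩) (by
      intro t t'
      rw [← ofMul_mul]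
      congr 1
      exact Subtype.ext (lf_add_right p hp hc hφ hψ hcomm s t t'))) (by
    intro s s'
    ext t
    change _ = _ * _
    exact lf_add_left p hp hc hφ hψ hcomm s s' t)

theorem pairF_val (s t : Dec) : (((pairF p hp hc hφ hψ hcomm s t).toMul : Subgroup.center E) : E) =
    ⁅lf p hp hφ s, lf p hp hψ t⁆ := rfl

theorem pairF_zero {s t : Dec} (h : ⁅lf p hp hφ s, lf p hp hψ t⁆ = 1) :
    pairF p hp hc hφ hψ hcomm s t = 0 := by
  apply Additive.toMul.injective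
  apply Subtype.ext
  rw [pairF_val, h]
  rfl

theorem suppIn_one0 {φ : ℝ → ℂ → ℂ} (hφ : NFlow φ) (x : ℝ) :
    SuppIn (Metric.ball (1 / 2 : ℂ) (3 / 10)) (p (lf p hp hφ (one0 x)) : Equiv.Perm ℂ) := by
  refine ⟨Metric.closedBall (1 / 2 : ℂ) (1 / 4), isCompact_closedBall _ _, ?_, fun z hz => ?_⟩
  · exact Metric.closedBall_subset_ball (by norm_num)
  · rw [p_lf, sumFlow_one0]
    refine hφ.supp x z ?_
    rw [Metric.mem_closedBall, dist_eq_norm] at hz
    exact le_of_not_ge hz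

theorem fix_shR {φ : ℝ → ℂ → ℂ} (hφ : NFlow φ) (s : Dec) :
    ∀ z ∈ Metric.ball (1 / 2 : ℂ) (3 / 10), (p (lf p hp hφ (shR s)) : Equiv.Perm ℂ) z = z := by
  intro z hz
  rw [p_lf, sumFlow_shR_fix hφ s z hz]

end Core

theorem core {E : Type*} [Group E] (p : E →* DiffC) (hp : Function.Surjective p)
    (hc : p.ker ≤ Subgroup.center E) (hE : commutator E = ⊤) {φ ψ : ℝ → ℂ → ℂ}
    (hφ : NFlow φ) (hψ : NFlow ψ) (hcomm : ∀ s t z, φ s (ψ t z) = ψ t (φ s z)) :
    ∃ (c : ℝ →+ ℝ →+ Additive (Subgroup.center E)) (F : Dec →+ Dec →+ Additive (Subgroup.center E)),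
      (∀ s t : Dec, F s t = c (s.1 0) (t.1 0) + F (shL s) (shL t)) ∧
      ∀ (s t : ℝ) (x y : E), (∀ z, (p x : Equiv.Perm ℂ) z = φ s z) →
        (∀ z, (p y : Equiv.Perm ℂ) z = ψ t z) → (((c s t).toMul : Subgroup.center E) : E) = ⁅x, y⁆ := by
  set F := pairF p hp hc hφ hψ hcomm with hF
  have hchart : IsChart (Metric.ball (1 / 2 : ℂ) (3 / 10)) := isChart_ball _ (by norm_num)
  refine ⟨AddMonoidHom.mk' (fun x => (F (one0 x)).comp one0) (by
    intro x x'
    ext y
    simp only [map_add, AddMonoidHom.comp_apply, AddMonoidHom.add_apply]), F, ?_, ?_⟩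
  · intro s t
    have h1 : ∀ x : ℝ, ∀ u : Dec, F (one0 x) (shR u) = 0 := by
      intro x u
      refine pairF_zero p hp hc hφ hψ hcomm ?_
      rw [commutatorElement_eq_one_iff_mul_comm]
      exact commute_of_chart p hp hc hE hchart _ _ (suppIn_one0 p hp hφ x) (fix_shR p hp hψ u)
    have h2 : ∀ x : ℝ, ∀ u : Dec, F (shR u) (one0 x) = 0 := by
      intro x u
      refine pairF_zero p hp hc hφ hψ hcomm ?_
      rw [commutatorElement_eq_one_iff_mul_comm]
      exact (commute_of_chart p hp hc hE hchart _ _ (suppIn_one0 p hp hψ x) (fix_shR p hp hφ u)).symm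
    have h3 : ∀ u v : Dec, F (shR u) (shR v) = F u v := by
      intro u v
      obtain ⟨h, hh⟩ := exists_shift4
      obtain ⟨k, hk⟩ := hp h
      apply Additive.toMul.injective
      apply Subtype.ext
      rw [hF, pairF_val, pairF_val]
      refine commutator_conj p hc (k := k) ?_ ?_ ?_
      · rw [p_lf, p_lf]; exact sumFlow_comm hφ hψ hcomm u v
      · rw [p_lf, p_lf, hk, sumFlow_shift hφ h hh u]; group
      · rw [p_lf, p_lf, hk, sumFlow_shift hψ h hh v]; group
    conv_lhs => rw [decomp s, decomp t]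
    rw [map_add, map_add, AddMonoidHom.add_apply, AddMonoidHom.add_apply, h1, h2, h3, add_zero,
      zero_add]
    rfl
  · intro s t x y hx hy
    change (((pairF p hp hc hφ hψ hcomm (one0 s) (one0 t)).toMul : Subgroup.center E) : E) = _
    rw [pairF_val]
    refine commutator_eq_of p hc ?_ ?_
    · rw [p_lf]
      exact diffC_ext fun z => by rw [sumFlow_one0, hx]
    · rw [p_lf]
      exact diffC_ext fun z => by rw [sumFlow_one0, hy]

end Pool.Agent.H27F
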