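import Pool.Agent.H27F.Group
import Pool.Agent.H27F.Alg

/-!
# Flows with compact support: reduction to the normal form and conclusion
-/

set_option autoImplicit false

open scoped ContDiff commutatorElement
open Pool.Agent.H45F Pool.Agent.H75T

namespace Pool.Agent.H27F

/-- a flow transported by the similarity `z ↦ 1 / 2 + r z` -/
noncomputable def nf (r : ℝ) (φ : ℝ → ℂ → ℂ) (t : ℝ) (z : ℂ) : ℂ :=
  1 / 2 + r * φ t ((z - 1 / 2) / r)

theorem nf_flow {φ : ℝ → ℂ → ℂ} {R : ℝ} {r : ℝ} (hr : 0 < r) (hR : 4 * R * r ≤ 1)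
    (hφ : ContDiff ℝ ∞ (fun q : ℝ × ℂ => φ q.1 q.2)) (hφ0 : ∀ z, φ 0 z = z)
    (hφa : ∀ s t z, φ (s + t) z = φ s (φ t z)) (hφR : ∀ t z, R ≤ ‖z‖ → φ t z = z) :
    NFlow (nf r φ) := by
  have hrc : (r : ℂ) ≠ 0 := by exact_mod_cast hr.ne'
  refine ⟨?_, ?_, ?_, ?_⟩
  · have h1 : ContDiff ℝ ∞ (fun q : ℝ × ℂ => (q.1, (q.2 - 1 / 2) / (r : ℂ))) :=
      contDiff_fst.prodMk ((contDiff_snd.sub contDiff_const).div_const _)
    exact contDiff_const.add (contDiff_const.mul (hφ.comp h1))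
  · intro z
    simp only [nf, hφ0]
    field_simp
    ring
  · intro s t z
    simp only [nf, hφa]
    congr 3
    field_simp
    ring
  · intro t z hz
    have h1 : R ≤ ‖(z - 1 / 2) / (r : ℂ)‖ := by
      rw [norm_div, Complex.norm_real, Real.norm_eq_abs, abs_of_pos hr, le_div_iff₀ hr]
      nlinarith
    simp only [nf, hφR t _ h1]
    field_simp
    ring

theorem bilinear {E : Type*} [Group E] (p : E →* DiffC) (hp : Function.Surjective p)
    (hc : p.ker ≤ Subgroup.center E) (hE : commutator E = ⊤) {φ ψ : ℝ → ℂ → ℂ} {R : ℝ}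
    (hφ : ContDiff ℝ ∞ (fun q : ℝ × ℂ => φ q.1 q.2)) (hφ0 : ∀ z, φ 0 z = z)
    (hφa : ∀ s t z, φ (s + t) z = φ s (φ t z)) (hφR : ∀ t z, R ≤ ‖z‖ → φ t z = z)
    (hψ : ContDiff ℝ ∞ (fun q : ℝ × ℂ => ψ q.1 q.2)) (hψ0 : ∀ z, ψ 0 z = z)
    (hψa : ∀ s t z, ψ (s + t) z = ψ s (ψ t z)) (hψR : ∀ t z, R ≤ ‖z‖ → ψ t z = z)
    (hcomm : ∀ s t z, φ s (ψ t z) = ψ t (φ s z)) :
    ∃ c : ℝ →+ ℝ →+ Additive (Subgroup.center E),
      (∀ α : ℝ, IsAlgebraic ℚ α → ∀ s t : ℝ, c (α * s) t = c s (α * t)) ∧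
      ∀ (s t : ℝ) (x y : E), (∀ z, (p x : Equiv.Perm ℂ) z = φ s z) →
        (∀ z, (p y : Equiv.Perm ℂ) z = ψ t z) →
          (((c s t).toMul : Subgroup.center E) : E) = ⁅x, y⁆ := by
  set r : ℝ := 1 / (4 * max R 1) with hrdef
  have hm : 0 < max R 1 := lt_max_of_lt_right one_pos
  have hr : 0 < r := by positivity
  have hR : 4 * R * r ≤ 1 := by
    rw [hrdef, mul_one_div, div_le_one (by positivity)]
    nlinarith [le_max_left R 1]
  have hrc : (r : ℂ) ≠ 0 := by exact_mod_cast hr.ne'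
  obtain ⟨θ, hθ, hθa⟩ := exists_conj_similarity r hr (1 / 2)
  have hlift : ∀ (χ : ℝ → ℂ → ℂ) (s : ℝ) (x : E), (∀ z, (p x : Equiv.Perm ℂ) z = χ s z) →
      ∀ z, ((θ.comp p) x : Equiv.Perm ℂ) z = nf r χ s z := by
    intro χ s x hx z
    have e : z = 1 / 2 + (r : ℂ) * ((z - 1 / 2) / r) := by
      field_simp; ring
    rw [MonoidHom.comp_apply]
    conv_lhs => rw [e]
    rw [hθa, hx]
    rfl
  have hker : (θ.comp p).ker ≤ Subgroup.center E := by
    intro x hx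
    apply hc
    rw [MonoidHom.mem_ker, MonoidHom.comp_apply] at hx
    rw [MonoidHom.mem_ker]
    exact hθ.1 (by rw [hx, map_one])
  obtain ⟨c, F, hF, hcx⟩ := core (θ.comp p) (hθ.2.comp hp) hker hE
    (nf_flow hr hR hφ hφ0 hφa hφR) (nf_flow hr hR hψ hψ0 hψa hψR) (by
      intro s t z
      simp only [nf]
      congr 2
      rw [add_sub_cancel_left, add_sub_cancel_left, mul_div_cancel_left₀ _ hrc,
        mul_div_cancel_left₀ _ hrc, hcomm])
  exact ⟨c, fun α hα s t => alg_main c F hF α hα s t,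
    fun s t x y hx hy => hcx s t x y (hlift φ s x hx) (hlift ψ t y hy)⟩

end Pool.Agent.H27F
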