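import Pool.Agent.H27F.Defs

/-!
# Smoothness of the infinite product at the accumulation point
-/

set_option autoImplicit false

open scoped ContDiff
open Set Filter Topology
open Pool.Agent.H45F Pool.Agent.H75T

namespace Pool.Agent.H27F

/-! ## The inversion -/

theorem contDiffAt_invC {z : ℂ} (hz : z ≠ 0) {n : ℕ∞ω} :
    ContDiffAt ℝ n (fun y : ℂ => y⁻¹) z :=
  contDiffAt_inv ℝ hz

theorem exists_inv_bound (i : ℕ) : ∃ B : ℝ, 1 ≤ B ∧ ∀ z : ℂ, z ≠ 0 →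
    ‖iteratedFDeriv ℝ i (fun y : ℂ => y⁻¹) z‖ ≤ B * ‖z‖⁻¹ ^ (i + 1) := by
  have hcont : ContinuousOn (iteratedFDeriv ℝ i (fun y : ℂ => y⁻¹)) (Metric.sphere (0 : ℂ) 1) := by
    intro z hz
    have hz0 : z ≠ 0 := by
      rintro rfl
      simp at hz
    have h : ContDiffAt ℝ 0 (iteratedFDeriv ℝ i (fun y : ℂ => y⁻¹)) z :=
      (contDiffAt_invC (n := ∞) hz0).iteratedFDeriv_right (by
        simp only [zero_add]; exact_mod_cast le_top)
    exact h.continuousAt.continuousWithinAt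
  obtain ⟨B, hB⟩ := (isCompact_sphere (0 : ℂ) 1).exists_bound_of_continuousOn hcont
  refine ⟨max 1 B, le_max_left _ _, fun z hz => ?_⟩
  have hr : 0 < ‖z‖ := norm_pos_iff.mpr hz
  set r : ℝ := ‖z‖ with hrdef
  have hr0 : r⁻¹ ≠ 0 := inv_ne_zero hr.ne'
  let e : ℂ ≃L[ℝ] ℂ := ContinuousLinearEquiv.smulLeft (Units.mk0 r⁻¹ hr0)
  have he : ∀ y : ℂ, e y = r⁻¹ • y := fun y => rfl
  have hfun : (fun y : ℂ => y⁻¹) = fun y : ℂ => r⁻¹ • (((fun y : ℂ => y⁻¹) ∘ e) y) := by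
    funext y
    simp only [Function.comp_apply, he, Complex.real_smul, mul_inv, Complex.ofReal_inv, inv_inv]
    have : (r : ℂ) ≠ 0 := by exact_mod_cast hr.ne'
    field_simp
  have hez : ‖e z‖ = 1 := by
    rw [he, norm_smul, Real.norm_eq_abs, abs_of_pos (inv_pos.mpr hr)]
    exact inv_mul_cancel₀ hr.ne'
  have hez0 : e z ≠ 0 := by
    intro h; rw [h] at hez; simp at hez
  have h1 : iteratedFDeriv ℝ i (fun y : ℂ => y⁻¹) z =
      r⁻¹ • iteratedFDeriv ℝ i ((fun y : ℂ => y⁻¹) ∘ e) z := by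
    conv_lhs => rw [hfun]
    refine iteratedFDeriv_const_smul_apply' ?_
    exact ((contDiffAt_invC hez0).comp z e.contDiff.contDiffAt)
  have h2 : iteratedFDeriv ℝ i ((fun y : ℂ => y⁻¹) ∘ e) z =
      (iteratedFDeriv ℝ i (fun y : ℂ => y⁻¹) (e z)).compContinuousLinearMap fun _ => (e : ℂ →L[ℝ] ℂ) := by
    have := e.iteratedFDerivWithin_comp_right (fun y : ℂ => y⁻¹) (s := univ) uniqueDiffOn_univ
      (x := z) (mem_univ _) i
    simpa [iteratedFDerivWithin_univ] using this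
  have hen : ‖(e : ℂ →L[ℝ] ℂ)‖ ≤ r⁻¹ := by
    refine ContinuousLinearMap.opNorm_le_bound _ (inv_nonneg.mpr hr.le) fun y => ?_
    rw [ContinuousLinearEquiv.coe_coe, he, norm_smul, Real.norm_eq_abs, abs_of_pos (inv_pos.mpr hr)]
  rw [h1, h2, norm_smul, Real.norm_eq_abs, abs_of_pos (inv_pos.mpr hr)]
  have h3 : ‖(iteratedFDeriv ℝ i (fun y : ℂ => y⁻¹) (e z)).compContinuousLinearMap
      fun _ => (e : ℂ →L[ℝ] ℂ)‖ ≤ max 1 B * (r⁻¹) ^ i := by
    refine (ContinuousMultilinearMap.norm_compContinuousLinearMap_le _ _).trans ?_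
    rw [Finset.prod_const, Finset.card_univ, Fintype.card_fin]
    gcongr
    exact (hB _ (by simp [hez])).trans (le_max_right _ _)
  calc r⁻¹ * _ ≤ r⁻¹ * (max 1 B * (r⁻¹) ^ i) := by gcongr
    _ = max 1 B * r⁻¹ ^ (i + 1) := by ring

/-! ## The displacement -/

variable {φ : ℝ → ℂ → ℂ}

theorem NFlow.fix_zero (hφ : NFlow φ) (t : ℝ) : φ t 0 = 0 := hφ.supp t 0 (by norm_num)

theorem NFlow.neg_apply (hφ : NFlow φ) (t : ℝ) (z : ℂ) : φ (-t) (φ t z) = z := by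
  rw [← hφ.add, neg_add_cancel, hφ.zero]

theorem NFlow.ne_zero (hφ : NFlow φ) (t : ℝ) {z : ℂ} (hz : z ≠ 0) : φ t z ≠ 0 := by
  intro h
  have := hφ.neg_apply t z
  rw [h, hφ.fix_zero] at this
  exact hz this.symm

theorem Dl_supp (hφ : NFlow φ) (s : ℝ) {w : ℂ} (hw : 1 / 4 ≤ ‖w⁻¹ - 1 / 2‖) : Dl φ s w = 0 := by
  rw [Dl, hφ.supp s _ hw, inv_inv, sub_self]

theorem Dl_zero (hφ : NFlow φ) (w : ℂ) : Dl φ 0 w = 0 := by
  rw [Dl, hφ.zero, inv_inv, sub_self]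

theorem Dl_re (hφ : NFlow φ) (s : ℝ) {w : ℂ} (hw : w.re ≤ 1) : Dl φ s w = 0 := by
  by_cases h0 : w = 0
  · exact Dl_supp hφ s (by rw [h0]; norm_num)
  refine Dl_supp hφ s ?_
  by_contra hlt
  push Not at hlt
  have hn : 0 < Complex.normSq w := Complex.normSq_pos.mpr h0
  have h1 : ‖w⁻¹ - 1 / 2‖ ^ 2 < (1 / 4) ^ 2 := by gcongr
  rw [← Complex.normSq_eq_norm_sq, Complex.normSq_apply] at h1
  have hre : (w⁻¹ - 1 / 2).re = w.re / Complex.normSq w - 1 / 2 := by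
    simp [Complex.inv_re]
  have him : (w⁻¹ - 1 / 2).im = -w.im / Complex.normSq w := by
    simp [Complex.inv_im]
  rw [hre, him] at h1
  have h2 : (w.re / Complex.normSq w) ^ 2 + (-w.im / Complex.normSq w) ^ 2 =
      1 / Complex.normSq w := by
    rw [div_pow, div_pow, ← add_div]
    have : w.re ^ 2 + (-w.im) ^ 2 = Complex.normSq w := by rw [Complex.normSq_apply]; ring
    rw [this]; field_simp
  have h3 : 1 / Complex.normSq w - w.re / Complex.normSq w + 1 / 4 < 1 / 16 := by nlinarith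
  have h4 : 0 ≤ (1 - w.re) / Complex.normSq w := div_nonneg (by linarith) hn.le
  have h5 : (1 - w.re) / Complex.normSq w = 1 / Complex.normSq w - w.re / Complex.normSq w := by
    rw [sub_div]
  linarith

theorem Dl_large (hφ : NFlow φ) (s : ℝ) {w : ℂ} (hw : 4 ≤ ‖w‖) : Dl φ s w = 0 := by
  refine Dl_supp hφ s ?_
  have h1 : ‖w⁻¹‖ ≤ 1 / 4 := by
    rw [norm_inv, inv_le_comm₀ (by linarith) (by norm_num)]
    simpa using hw
  have h2 : ‖(1 / 2 : ℂ)‖ = 1 / 2 := by norm_num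
  have h3 := norm_sub_norm_le (1 / 2 : ℂ) w⁻¹
  rw [norm_sub_rev]
  linarith

theorem Dl_small (hφ : NFlow φ) (s : ℝ) {w : ℂ} (hw : ‖w‖ ≤ 1) : Dl φ s w = 0 :=
  Dl_re hφ s (le_trans (le_trans (le_abs_self _) (Complex.abs_re_le_norm w)) hw)

theorem Dl_smooth (hφ : NFlow φ) : ContDiff ℝ ∞ (fun q : ℝ × ℂ => Dl φ q.1 q.2) := by
  rw [contDiff_iff_contDiffAt]
  rintro ⟨s, w⟩
  by_cases h0 : w = 0
  · subst h0
    have : (fun q : ℝ × ℂ => Dl φ q.1 q.2) =ᶠ[𝓝 (s, (0 : ℂ))] fun _ => 0 := by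
      have hopen : {q : ℝ × ℂ | ‖q.2‖ < 1} ∈ 𝓝 (s, (0 : ℂ)) := by
        refine IsOpen.mem_nhds ?_ (by simp)
        exact isOpen_lt (continuous_snd.norm) continuous_const
      filter_upwards [hopen] with q hq
      exact Dl_small hφ _ (le_of_lt hq)
    exact contDiffAt_const.congr_of_eventuallyEq this
  · have h1 : ContDiffAt ℝ ∞ (fun q : ℝ × ℂ => q.2⁻¹) (s, w) :=
      ContDiffAt.comp (s, w) (contDiffAt_invC h0) contDiffAt_snd
    have h2 : ContDiffAt ℝ ∞ (fun q : ℝ × ℂ => φ q.1 q.2⁻¹) (s, w) := by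
      exact (hφ.smooth.contDiffAt (x := (s, w⁻¹))).comp (s, w) (contDiffAt_fst.prodMk h1)
    have h3 : φ s w⁻¹ ≠ 0 := hφ.ne_zero s (inv_ne_zero h0)
    have h4 : ContDiffAt ℝ ∞ (fun q : ℝ × ℂ => (φ q.1 q.2⁻¹)⁻¹) (s, w) :=
      ContDiffAt.comp (s, w) (contDiffAt_invC h3) h2
    exact h4.sub contDiffAt_snd

/-- the iterated derivatives in the plane variable are jointly smooth -/
theorem iter_smooth (hφ : NFlow φ) (n : ℕ) :
    ContDiff ℝ ∞ (fun q : ℝ × ℂ => iteratedFDeriv ℝ n (Dl φ q.1) q.2) := by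
  induction n with
  | zero =>
    have h : (fun q : ℝ × ℂ => iteratedFDeriv ℝ 0 (Dl φ q.1) q.2) =
        (continuousMultilinearCurryFin0 ℝ ℂ ℂ).symm ∘ fun q : ℝ × ℂ => Dl φ q.1 q.2 := by
      funext q
      rw [iteratedFDeriv_zero_eq_comp]; rfl
    rw [h]
    exact (continuousMultilinearCurryFin0 ℝ ℂ ℂ).symm.contDiff.comp (Dl_smooth hφ)
  | succ n ih =>
    have h : (fun q : ℝ × ℂ => iteratedFDeriv ℝ (n + 1) (Dl φ q.1) q.2) =
        (continuousMultilinearCurryLeftEquiv ℝ (fun _ : Fin (n + 1) => ℂ) ℂ).symm ∘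
          fun q : ℝ × ℂ => fderiv ℝ (iteratedFDeriv ℝ n (Dl φ q.1)) q.2 := by
      funext q
      rw [iteratedFDeriv_succ_eq_comp_left]; rfl
    rw [h]
    have h1 : ContDiff ℝ ∞ (fun q : ℝ × ℂ => fderiv ℝ (iteratedFDeriv ℝ n (Dl φ q.1)) q.2) := by
      refine ContDiff.fderiv (m := ∞) (f := fun q : ℝ × ℂ => iteratedFDeriv ℝ n (Dl φ q.1))
        (g := fun q => q.2) ?_ contDiff_snd (by simp)
      have : (Function.uncurry fun q : ℝ × ℂ => iteratedFDeriv ℝ n (Dl φ q.1)) =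
          (fun q : ℝ × ℂ => iteratedFDeriv ℝ n (Dl φ q.1) q.2) ∘
            fun u : (ℝ × ℂ) × ℂ => (u.1.1, u.2) := by
        funext u; rfl
      rw [this]
      exact ih.comp ((contDiff_fst.comp contDiff_fst).prodMk contDiff_snd)
    exact h1.continuousLinearMap_comp
      ((continuousMultilinearCurryLeftEquiv ℝ (fun _ : Fin (n + 1) => ℂ) ℂ).symm :
        _ →L[ℝ] ContinuousMultilinearMap ℝ (fun _ : Fin (n + 1) => ℂ) ℂ)

theorem exists_iter_bound (hφ : NFlow φ) (n : ℕ) (M : ℝ) (hM : 0 ≤ M) :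
    ∃ C : ℝ, 0 ≤ C ∧ ∀ s : ℝ, |s| ≤ M → ∀ w : ℂ,
      ‖iteratedFDeriv ℝ n (Dl φ s) w‖ ≤ C * |s| := by
  set K : ℝ × ℂ → ContinuousMultilinearMap ℝ (fun _ : Fin n => ℂ) ℂ :=
    fun q : ℝ × ℂ => iteratedFDeriv ℝ n (Dl φ q.1) q.2 with hK
  have hKs : ContDiff ℝ ∞ K := iter_smooth hφ n
  have hd := hKs.continuous_fderiv (by simp)
  have hcpt : IsCompact (Icc (-M) M ×ˢ Metric.closedBall (0 : ℂ) 5) :=
    isCompact_Icc.prod (isCompact_closedBall _ _)
  have hdn : Continuous (fun q => ‖fderiv ℝ K q‖) := continuous_norm.comp hd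
  obtain ⟨C, hC⟩ := hcpt.bddAbove_image (f := fun q => ‖fderiv ℝ K q‖) hdn.continuousOn
  have hC' : ∀ q ∈ Icc (-M) M ×ˢ Metric.closedBall (0 : ℂ) 5, ‖fderiv ℝ K q‖ ≤ max 0 C :=
    fun q hq => (hC (mem_image_of_mem _ hq)).trans (le_max_right _ _)
  have hconv : Convex ℝ (Icc (-M) M ×ˢ Metric.closedBall (0 : ℂ) 5) :=
    (convex_Icc _ _).prod (convex_closedBall _ _)
  have hK0 : ∀ w, K (0, w) = 0 := by
    intro w
    have h : Dl φ 0 = fun _ => 0 := by funext w; exact Dl_zero hφ w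
    change iteratedFDeriv ℝ n (Dl φ 0) w = 0
    rw [h]
    exact congrFun (iteratedFDeriv_fun_zero (𝕜 := ℝ) (E := ℂ) (F := ℂ) (n := n)) w
  refine ⟨max 0 C, le_max_left _ _, fun s hs w => ?_⟩
  by_cases hw : ‖w‖ ≤ 5
  · have h := hconv.norm_image_sub_le_of_norm_fderiv_le (𝕜 := ℝ) (f := K) (C := max 0 C)
      (fun q _ => hKs.differentiable (by simp) q) hC' (x := (0, w)) (y := (s, w))
      ⟨⟨by simpa using hM, hM⟩, by simpa using hw⟩ ⟨abs_le.mp hs, by simpa using hw⟩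
    rw [hK0, sub_zero] at h
    have e : ‖((s, w) : ℝ × ℂ) - (0, w)‖ = |s| := by
      rw [Prod.mk_sub_mk, sub_self, sub_zero, Prod.norm_mk, norm_zero, Real.norm_eq_abs]
      exact max_eq_left (abs_nonneg s)
    rw [e] at h
    exact h
  · push Not at hw
    have hev : Dl φ s =ᶠ[𝓝 w] fun _ => 0 := by
      have : {y : ℂ | 4 < ‖y‖} ∈ 𝓝 w :=
        (isOpen_lt continuous_const continuous_norm).mem_nhds (by
          change 4 < ‖w‖; linarith)
      filter_upwards [this] with y hy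
      exact Dl_large hφ s (le_of_lt hy)
    have h := hev.iteratedFDeriv (𝕜 := ℝ) n
    have h2 := h.eq_of_nhds
    rw [h2]
    have h3 := congrFun (iteratedFDeriv_fun_zero (𝕜 := ℝ) (E := ℂ) (F := ℂ) (n := n)) w
    have h4 : iteratedFDeriv ℝ n (fun _ : ℂ => (0 : ℂ)) w = 0 := h3
    rw [h4, norm_zero]
    positivity

/-! ## One translated copy in the coordinate `z` -/

/-- the displacement of the `k`-th copy, as a function of `z` -/
noncomputable def Ek (φ : ℝ → ℂ → ℂ) (s : ℝ) (k : ℕ) (z : ℂ) : ℂ := Dl φ s (z⁻¹ - 4 * k)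

theorem Ek_small (hφ : NFlow φ) (s : ℝ) (k : ℕ) {z : ℂ} (hz : ‖z‖ * (4 * k + 4) < 1) :
    Ek φ s k z = 0 := by
  unfold Ek
  by_cases h0 : z = 0
  · subst h0
    refine Dl_re hφ s ?_
    have : (0 : ℝ) ≤ 4 * k := by positivity
    simp only [inv_zero, zero_sub, Complex.neg_re, Complex.mul_re, Complex.re_ofNat,
      Complex.natCast_re, Complex.im_ofNat, Complex.natCast_im, mul_zero, sub_zero]
    linarith
  · refine Dl_large hφ s ?_
    have hz0 : 0 < ‖z‖ := norm_pos_iff.mpr h0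
    have h1 : (4 * k + 4 : ℝ) < ‖z⁻¹‖ := by
      rw [norm_inv, lt_inv_comm₀ (by positivity) hz0]
      rw [lt_inv_comm₀ hz0 (by positivity), inv_eq_one_div, lt_div_iff₀ hz0]
      linarith [mul_comm ‖z‖ (4 * k + 4 : ℝ)]
    have h2 : ‖(4 * k : ℂ)‖ = 4 * k := by simp
    have h3 := norm_sub_norm_le z⁻¹ (4 * k : ℂ)
    linarith

theorem Ek_smooth (hφ : NFlow φ) (s : ℝ) (k : ℕ) : ContDiff ℝ ∞ (Ek φ s k) := by
  rw [contDiff_iff_contDiffAt]
  intro z
  by_cases h0 : z = 0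
  · subst h0
    have : Ek φ s k =ᶠ[𝓝 (0 : ℂ)] fun _ => 0 := by
      have hopen : {z : ℂ | ‖z‖ * (4 * k + 4) < 1} ∈ 𝓝 (0 : ℂ) := by
        refine IsOpen.mem_nhds ?_ (by simp)
        exact isOpen_lt (continuous_norm.mul continuous_const) continuous_const
      filter_upwards [hopen] with q hq
      exact Ek_small hφ _ _ hq
    exact contDiffAt_const.congr_of_eventuallyEq this
  · have h1 : ContDiffAt ℝ ∞ (fun z : ℂ => z⁻¹ - 4 * k) z :=
      (contDiffAt_invC h0).sub contDiffAt_const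
    have h2 : ContDiff ℝ ∞ (Dl φ s) :=
      (Dl_smooth hφ).comp (contDiff_const.prodMk contDiff_id)
    exact h2.contDiffAt.comp z h1

theorem exists_Ek_bound (hφ : NFlow φ) (n : ℕ) (M : ℝ) (hM : 0 ≤ M) :
    ∃ C : ℝ, 0 ≤ C ∧ ∀ s : ℝ, |s| ≤ M → ∀ k : ℕ, ∀ z : ℂ,
      ‖iteratedFDeriv ℝ n (Ek φ s k) z‖ ≤ C * |s| * ((k : ℝ) + 1) ^ (2 * n) := by
  choose B hB1 hB using exists_inv_bound
  choose C hC0 hC using fun i => exists_iter_bound hφ i M hM
  set B' : ℝ := ∑ i ∈ Finset.range (n + 1), B i with hB'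
  set C' : ℝ := ∑ i ∈ Finset.range (n + 1), C i with hC'
  have hBle : ∀ i ≤ n, B i ≤ B' := fun i hi =>
    Finset.single_le_sum (f := B) (fun j _ => le_trans zero_le_one (hB1 j))
      (Finset.mem_range.mpr (Nat.lt_succ_of_le hi))
  have hCle : ∀ i ≤ n, C i ≤ C' := fun i hi =>
    Finset.single_le_sum (f := C) (fun j _ => hC0 j) (Finset.mem_range.mpr (Nat.lt_succ_of_le hi))
  have hB'1 : 1 ≤ B' := (hB1 0).trans (hBle 0 (Nat.zero_le _))
  have hC'0 : 0 ≤ C' := (hC0 0).trans (hCle 0 (Nat.zero_le _))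
  refine ⟨(n.factorial : ℝ) * C' * (B' * 16) ^ n, by positivity, fun s hs k z => ?_⟩
  by_cases hz : ‖z‖ * (4 * k + 4) < 1
  · have hev : Ek φ s k =ᶠ[𝓝 z] fun _ => 0 := by
      have hopen : {z : ℂ | ‖z‖ * (4 * k + 4) < 1} ∈ 𝓝 z := by
        refine IsOpen.mem_nhds ?_ hz
        exact isOpen_lt (continuous_norm.mul continuous_const) continuous_const
      filter_upwards [hopen] with q hq
      exact Ek_small hφ _ _ hq
    have h2 := (hev.iteratedFDeriv (𝕜 := ℝ) n).eq_of_nhds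
    rw [h2]
    have h3 := congrFun (iteratedFDeriv_fun_zero (𝕜 := ℝ) (E := ℂ) (F := ℂ) (n := n)) z
    have h4 : iteratedFDeriv ℝ n (fun _ : ℂ => (0 : ℂ)) z = 0 := h3
    rw [h4, norm_zero]
    positivity
  · push Not at hz
    have h0 : z ≠ 0 := by
      rintro rfl
      simp at hz
      linarith
    have hz0 : 0 < ‖z‖ := norm_pos_iff.mpr h0
    have hinv : ‖z‖⁻¹ ≤ 4 * k + 4 := by
      rw [inv_le_iff_one_le_mul₀ hz0]; linarith [mul_comm ‖z‖ (4 * k + 4 : ℝ)]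
    have hopen : IsOpen ({0}ᶜ : Set ℂ) := isOpen_compl_singleton
    set G : ℂ → ℂ := fun u => Dl φ s (u - 4 * k) with hG
    have hGs : ContDiff ℝ ∞ G :=
      ((Dl_smooth hφ).comp (contDiff_const.prodMk contDiff_id)).comp
        (contDiff_id.sub contDiff_const)
    have hfun : Ek φ s k = G ∘ fun y : ℂ => y⁻¹ := rfl
    have hk1 : (1 : ℝ) ≤ 4 * k + 4 := by
      have : (0 : ℝ) ≤ k := Nat.cast_nonneg k
      linarith
    have key := norm_iteratedFDerivWithin_comp_le (𝕜 := ℝ) (g := G) (f := fun y : ℂ => y⁻¹)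
      (n := n) (s := ({0}ᶜ : Set ℂ)) (t := univ) (x := z) (N := ∞) hGs.contDiffOn
      (fun y hy => (contDiffAt_invC hy).contDiffWithinAt) (by exact_mod_cast le_top)
      uniqueDiffOn_univ hopen.uniqueDiffOn (mapsTo_univ _ _) h0
      (C := C' * |s|) (D := B' * (4 * k + 4) ^ 2)
      (by
        intro i hi
        rw [iteratedFDerivWithin_univ]
        have e : iteratedFDeriv ℝ i G z⁻¹ = iteratedFDeriv ℝ i (Dl φ s) (z⁻¹ - 4 * k) :=
          iteratedFDeriv_comp_sub i _ _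
        rw [e]
        refine (hC i s hs _).trans ?_
        exact mul_le_mul_of_nonneg_right (hCle i hi) (abs_nonneg s))
      (by
        intro i hi1 hi
        rw [iteratedFDerivWithin_of_isOpen i hopen h0]
        refine (hB i z h0).trans ?_
        have h5 : ‖z‖⁻¹ ^ (i + 1) ≤ (4 * k + 4 : ℝ) ^ (2 * i) := by
          calc ‖z‖⁻¹ ^ (i + 1) ≤ (4 * k + 4 : ℝ) ^ (i + 1) := by gcongr
            _ ≤ (4 * k + 4 : ℝ) ^ (2 * i) := pow_le_pow_right₀ hk1 (by omega)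
        have h6 : B i ≤ B' ^ i := (hBle i hi).trans (le_self_pow₀ hB'1 (by omega))
        calc B i * ‖z‖⁻¹ ^ (i + 1) ≤ B' ^ i * (4 * k + 4 : ℝ) ^ (2 * i) := by
              gcongr
          _ = (B' * (4 * k + 4) ^ 2) ^ i := by rw [mul_pow, ← pow_mul])
    rw [iteratedFDerivWithin_of_isOpen n hopen h0] at key
    rw [hfun]
    refine key.trans (le_of_eq ?_)
    have : (4 * (k : ℝ) + 4) ^ 2 = 16 * ((k : ℝ) + 1) ^ 2 := by ring
    rw [this, mul_pow, mul_pow, mul_pow, ← pow_mul]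
    ring

theorem summable_bound {r : ℝ} (hr : 0 < r) (hr1 : r < 1) (m : ℕ) :
    Summable fun k : ℕ => ((k : ℝ) + 1) ^ m * r ^ k := by
  have h := summable_pow_mul_geometric_of_norm_lt_one (R := ℝ) m (r := r) (by
    rw [Real.norm_eq_abs, abs_of_pos hr]; exact hr1)
  have h1 := (summable_nat_add_iff 1).mpr h
  have h2 := h1.mul_left r⁻¹
  refine h2.congr fun k => ?_
  push_cast
  rw [pow_succ]
  field_simp

theorem sum_smooth {φ : ℝ → ℂ → ℂ} (hφ : NFlow φ) (s : Dec) :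
    ContDiff ℝ ∞ (fun z : ℂ => ∑' k : ℕ, Dl φ (s.1 k) (z⁻¹ - 4 * k)) := by
  obtain ⟨C, r, hr, hr1, h⟩ := s.2
  have hC : 0 ≤ C := by
    have := h 0; simp only [pow_zero, mul_one] at this; exact le_trans (abs_nonneg _) this
  have hM : ∀ k, |s.1 k| ≤ C := fun k =>
    (h k).trans (mul_le_of_le_one_right hC (pow_le_one₀ hr.le hr1.le))
  choose D hD0 hD using fun n => exists_Ek_bound hφ n C hC
  refine contDiff_tsum (𝕜 := ℝ) (f := fun k z => Ek φ (s.1 k) k z)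
    (v := fun n k => D n * C * (((k : ℝ) + 1) ^ (2 * n) * r ^ k)) (N := ⊤)
    (fun k => Ek_smooth hφ _ _) (fun n _ => (summable_bound hr hr1 (2 * n)).mul_left _)
    fun n k z _ => ?_
  refine (hD n (s.1 k) (hM k) k z).trans ?_
  have : D n * |s.1 k| * ((k : ℝ) + 1) ^ (2 * n) ≤ D n * (C * r ^ k) * ((k : ℝ) + 1) ^ (2 * n) := by
    gcongr
    · exact hD0 n
    · exact h k
  refine this.trans (le_of_eq ?_)
  ring

end Pool.Agent.H27F
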