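import Pool.Agent.H27F.Smooth

/-!
# The homomorphism from sequences to diffeomorphisms
-/

set_option autoImplicit false

open scoped ContDiff
open Pool.Agent.H45F Pool.Agent.H75T

namespace Pool.Agent.H27F

variable {φ ψ : ℝ → ℂ → ℂ}

/-- membership in the image of the disc under `1 / z` -/
def InS (w : ℂ) : Prop := ‖w⁻¹ - 1 / 2‖ < 1 / 4

theorem InS.re {w : ℂ} (h : InS w) : 4 / 3 < w.re ∧ w.re < 4 := by
  have hw : w ≠ 0 := by
    rintro rfl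
    unfold InS at h
    norm_num at h
  obtain ⟨z, rfl⟩ : ∃ z : ℂ, w = z⁻¹ := ⟨w⁻¹, (inv_inv w).symm⟩
  unfold InS at h
  rw [inv_inv] at h
  have hz0 : z ≠ 0 := fun h0 => hw (by rw [h0, inv_zero])
  have hn : 0 < Complex.normSq z := Complex.normSq_pos.2 hz0
  have h2 : Complex.normSq (z - 1 / 2) < 1 / 16 := by
    rw [Complex.normSq_eq_norm_sq]
    nlinarith [norm_nonneg (z - 1 / 2)]
  have e1 : (z - 1 / 2).re = z.re - 1 / 2 := by simp
  have e2 : (z - 1 / 2).im = z.im := by simp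
  rw [Complex.normSq_apply, e1, e2] at h2
  rw [Complex.normSq_apply] at hn
  rw [Complex.inv_re, Complex.normSq_apply, lt_div_iff₀ hn, div_lt_iff₀ hn]
  have h3 : z.re < 3 / 4 := by nlinarith [mul_self_nonneg z.im]
  have h4 : 1 / 4 < z.re := by nlinarith [mul_self_nonneg z.im]
  constructor
  · nlinarith
  · nlinarith [mul_self_nonneg z.im]

/-- the flow in the coordinate `1 / z` -/
noncomputable def Tf (φ : ℝ → ℂ → ℂ) (s : ℝ) (w : ℂ) : ℂ := (φ s w⁻¹)⁻¹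

theorem Dl_eq (s : ℝ) (w : ℂ) : Dl φ s w = Tf φ s w - w := rfl

theorem Tf_out (hφ : NFlow φ) (s : ℝ) {w : ℂ} (h : ¬ InS w) : Tf φ s w = w := by
  unfold InS at h
  push Not at h
  unfold Tf
  rw [hφ.supp _ _ h, inv_inv]

theorem Dl_out (hφ : NFlow φ) (s : ℝ) {w : ℂ} (h : ¬ InS w) : Dl φ s w = 0 := by
  rw [Dl_eq, Tf_out hφ s h, sub_self]

theorem Tf_zero (hφ : NFlow φ) (w : ℂ) : Tf φ 0 w = w := by
  unfold Tf
  rw [hφ.zero, inv_inv]

theorem Tf_add (hφ : NFlow φ) (s t : ℝ) (w : ℂ) : Tf φ (s + t) w = Tf φ s (Tf φ t w) := by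
  unfold Tf
  rw [hφ.add, inv_inv]

theorem Tf_in (hφ : NFlow φ) (s : ℝ) {w : ℂ} (h : InS w) : InS (Tf φ s w) := by
  by_contra hc
  have h1 := Tf_out hφ (-s) hc
  rw [← Tf_add hφ, neg_add_cancel, Tf_zero hφ] at h1
  rw [← h1] at hc
  exact hc h

theorem InS_unique {w : ℂ} {j k : ℕ} (hj : InS (w - 4 * j)) (hk : InS (w - 4 * k)) : j = k := by
  have h1 := hj.re
  have h2 := hk.re
  have e : ∀ n : ℕ, (w - 4 * n).re = w.re - 4 * n := fun n => by simp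
  rw [e] at h1 h2
  by_contra hne
  rcases lt_or_gt_of_ne hne with h | h
  · have : (j : ℝ) + 1 ≤ k := by exact_mod_cast h
    linarith [h1.1, h1.2, h2.1, h2.2]
  · have : (k : ℝ) + 1 ≤ j := by exact_mod_cast h
    linarith [h1.1, h1.2, h2.1, h2.2]

theorem W_in (hφ : NFlow φ) (s : ℕ → ℝ) {w : ℂ} (k : ℕ) (h : InS (w - 4 * k)) :
    W φ s w = 4 * k + Tf φ (s k) (w - 4 * k) := by
  unfold W
  rw [tsum_eq_single k]
  · rw [Dl_eq]; ring
  · intro j hj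
    exact Dl_out hφ _ fun hc => hj (InS_unique hc h)

theorem W_out (hφ : NFlow φ) (s : ℕ → ℝ) {w : ℂ} (h : ∀ k : ℕ, ¬ InS (w - 4 * k)) :
    W φ s w = w := by
  unfold W
  rw [tsum_congr fun k => Dl_out hφ _ (h k), tsum_zero, add_zero]

/-- a translated copy of the disc is preserved -/
theorem W_mem (hφ : NFlow φ) (s : ℕ → ℝ) {w : ℂ} (k : ℕ) (h : InS (w - 4 * k)) :
    InS (W φ s w - 4 * k) := by
  rw [W_in hφ s k h, add_sub_cancel_left]
  exact Tf_in hφ _ h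

theorem InS_re_gt {w : ℂ} (k : ℕ) (h : InS (w - 4 * k)) : 4 / 3 + 4 * (k : ℝ) < w.re := by
  have h1 := h.re.1
  have e : (w - 4 * k).re = w.re - 4 * k := by simp
  rw [e] at h1
  linarith

theorem not_InS_of_re {w : ℂ} (h : w.re ≤ 4 / 3) (k : ℕ) : ¬ InS (w - 4 * k) := by
  intro hc
  have h1 := InS_re_gt k hc
  have h2 : (0 : ℝ) ≤ k := Nat.cast_nonneg k
  linarith

theorem W_re_gt (hφ : NFlow φ) (s : ℕ → ℝ) {w : ℂ} (h : 1 < w.re) : 1 < (W φ s w).re := by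
  by_cases hk : ∃ k : ℕ, InS (w - 4 * k)
  · obtain ⟨k, hk⟩ := hk
    have h1 := InS_re_gt k (W_mem hφ s k hk)
    have h2 : (0 : ℝ) ≤ k := Nat.cast_nonneg k
    linarith
  · push Not at hk
    rwa [W_out hφ s hk]

theorem W_of_re (hφ : NFlow φ) (s : ℕ → ℝ) {w : ℂ} (h : w.re ≤ 4 / 3) : W φ s w = w :=
  W_out hφ s (not_InS_of_re h)

theorem W_seq_zero (hφ : NFlow φ) (w : ℂ) : W φ 0 w = w := by
  by_cases hk : ∃ k : ℕ, InS (w - 4 * k)
  · obtain ⟨k, hk⟩ := hk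
    rw [W_in hφ 0 k hk, Pi.zero_apply, Tf_zero hφ]
    ring
  · push Not at hk
    exact W_out hφ 0 hk

theorem W_add (hφ : NFlow φ) (s t : ℕ → ℝ) (w : ℂ) : W φ (s + t) w = W φ s (W φ t w) := by
  by_cases hk : ∃ k : ℕ, InS (w - 4 * k)
  · obtain ⟨k, hk⟩ := hk
    rw [W_in hφ s k (W_mem hφ t k hk), W_in hφ (s + t) k hk, W_in hφ t k hk, add_sub_cancel_left,
      Pi.add_apply, Tf_add hφ]
  · push Not at hk
    rw [W_out hφ t hk, W_out hφ s hk, W_out hφ (s + t) hk]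

theorem W_ne_zero (hφ : NFlow φ) (s : ℕ → ℝ) {w : ℂ} (h : w ≠ 0) : W φ s w ≠ 0 := by
  rcases le_or_gt w.re (4 / 3) with h1 | h1
  · rwa [W_of_re hφ s h1]
  · intro hc
    have h2 := W_re_gt hφ s (w := w) (by linarith)
    rw [hc, Complex.zero_re] at h2
    linarith

theorem W_zero (hφ : NFlow φ) (s : ℕ → ℝ) : W φ s 0 = 0 :=
  W_of_re hφ s (by rw [Complex.zero_re]; norm_num)

/-- the permutation of the plane defined by a sequence -/
noncomputable def sumPerm (hφ : NFlow φ) (s : ℕ → ℝ) : Equiv.Perm ℂ where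
  toFun z := (W φ s z⁻¹)⁻¹
  invFun z := (W φ (-s) z⁻¹)⁻¹
  left_inv z := by
    change (W φ (-s) ((W φ s z⁻¹)⁻¹)⁻¹)⁻¹ = z
    rw [inv_inv, ← W_add hφ, neg_add_cancel, W_seq_zero hφ, inv_inv]
  right_inv z := by
    change (W φ s ((W φ (-s) z⁻¹)⁻¹)⁻¹)⁻¹ = z
    rw [inv_inv, ← W_add hφ, add_neg_cancel, W_seq_zero hφ, inv_inv]

theorem sumPerm_smooth (hφ : NFlow φ) (s : Dec) :
    ContDiff ℝ ∞ (fun z : ℂ => (W φ s.1 z⁻¹)⁻¹) := by
  have hE := sum_smooth hφ s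
  set E : ℂ → ℂ := fun z : ℂ => ∑' k : ℕ, Dl φ (s.1 k) (z⁻¹ - 4 * k) with hEd
  have hWE : ∀ z, W φ s.1 z⁻¹ = z⁻¹ + E z := fun z => rfl
  have h0 : ∀ z, 1 + z * E z ≠ 0 := by
    intro z
    rcases eq_or_ne z 0 with rfl | hz
    · rw [zero_mul, add_zero]; exact one_ne_zero
    · have h1 := W_ne_zero hφ s.1 (inv_ne_zero hz)
      rw [hWE] at h1
      have h2 : 1 + z * E z = z * (z⁻¹ + E z) := by
        rw [mul_add, mul_inv_cancel₀ hz]
      rw [h2]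
      exact mul_ne_zero hz h1
  have h3 : (fun z : ℂ => (W φ s.1 z⁻¹)⁻¹) = fun z => z * (1 + z * E z)⁻¹ := by
    funext z
    rcases eq_or_ne z 0 with rfl | hz
    · rw [inv_zero, W_zero hφ, inv_zero, zero_mul]
    · have h2 : 1 + z * E z = z * (z⁻¹ + E z) := by
        rw [mul_add, mul_inv_cancel₀ hz]
      rw [hWE, h2, mul_inv, mul_inv_cancel_left₀ hz]
  rw [h3]
  exact contDiff_id.mul ((contDiff_const.add (contDiff_id.mul hE)).inv h0)

theorem sumPerm_mem (hφ : NFlow φ) (s : Dec) : sumPerm hφ s.1 ∈ DiffC := by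
  refine ⟨sumPerm_smooth hφ s, sumPerm_smooth hφ (-s), 1, fun z hz => ?_⟩
  change (W φ s.1 z⁻¹)⁻¹ = z
  have h1 : ‖z⁻¹‖ ≤ 1 := by
    rw [norm_inv]
    exact inv_le_one_of_one_le₀ hz
  have h2 : (z⁻¹).re ≤ 1 := le_trans (Complex.re_le_norm _) h1
  rw [W_of_re hφ s.1 (by linarith), inv_inv]

noncomputable def sumFlow (hφ : NFlow φ) : Multiplicative Dec →* DiffC where
  toFun s := ⟨sumPerm hφ (Multiplicative.toAdd s).1, sumPerm_mem hφ _⟩
  map_one' := by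
    apply Subtype.ext
    apply Equiv.ext
    intro z
    change (W φ 0 z⁻¹)⁻¹ = z
    rw [W_seq_zero hφ, inv_inv]
  map_mul' s t := by
    apply Subtype.ext
    apply Equiv.ext
    intro z
    change (W φ ((Multiplicative.toAdd s).1 + (Multiplicative.toAdd t).1) z⁻¹)⁻¹ =
      (W φ (Multiplicative.toAdd s).1 ((W φ (Multiplicative.toAdd t).1 z⁻¹)⁻¹)⁻¹)⁻¹
    rw [inv_inv, W_add hφ]

theorem sumFlow_apply (hφ : NFlow φ) (s : Dec) (z : ℂ) :
    (sumFlow hφ (Multiplicative.ofAdd s) : Equiv.Perm ℂ) z = (W φ s.1 z⁻¹)⁻¹ := rfl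

theorem sumFlow_one0 (hφ : NFlow φ) (x : ℝ) (z : ℂ) :
    (sumFlow hφ (Multiplicative.ofAdd (one0 x)) : Equiv.Perm ℂ) z = φ x z := by
  rw [sumFlow_apply]
  unfold W
  rw [tsum_eq_single 0]
  · rw [one0_zero, Nat.cast_zero, mul_zero, sub_zero, Dl_eq, add_sub_cancel, Tf, inv_inv, inv_inv]
  · intro k hk
    obtain ⟨k, rfl⟩ := Nat.exists_eq_succ_of_ne_zero hk
    rw [Nat.succ_eq_add_one, one0_succ, Dl_eq, Tf_zero hφ, sub_self]

theorem W_shR_zero (hφ : NFlow φ) (s : Dec) {w : ℂ} (h : ∀ k : ℕ, ¬ InS (w - 4 * (k + 1 : ℕ))) :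
    W φ (shR s).1 w = w := by
  by_cases h0 : InS (w - 4 * (0 : ℕ))
  · rw [W_in hφ _ 0 h0, shR_zero, Tf_zero hφ]
    ring
  · refine W_out hφ _ fun k => ?_
    rcases k with _ | k
    · exact h0
    · exact h k

theorem W_shR (hφ : NFlow φ) (s : Dec) (w : ℂ) : W φ (shR s).1 (w + 4) = W φ s.1 w + 4 := by
  have e : ∀ k : ℕ, w + 4 - 4 * ((k + 1 : ℕ) : ℂ) = w - 4 * k := fun k => by push_cast; ring
  by_cases hk : ∃ k : ℕ, InS (w - 4 * k)
  · obtain ⟨k, hk⟩ := hk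
    have h1 : InS (w + 4 - 4 * ((k + 1 : ℕ) : ℂ)) := by rw [e]; exact hk
    rw [W_in hφ _ (k + 1) h1, W_in hφ _ k hk, e, shR_succ]
    push_cast
    ring
  · push Not at hk
    rw [W_out hφ _ hk]
    refine W_shR_zero hφ s fun k => ?_
    rw [e]
    exact hk k

theorem sumFlow_shift (hφ : NFlow φ) (h : DiffC)
    (hh : ∀ z : ℂ, 1 < (z⁻¹).re → (h : Equiv.Perm ℂ) z = (z⁻¹ + 4)⁻¹) (s : Dec) :
    h * sumFlow hφ (Multiplicative.ofAdd s) = sumFlow hφ (Multiplicative.ofAdd (shR s)) * h := by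
  apply Subtype.ext
  apply Equiv.ext
  intro z
  change (h : Equiv.Perm ℂ) ((sumFlow hφ (Multiplicative.ofAdd s) : Equiv.Perm ℂ) z) =
    (sumFlow hφ (Multiplicative.ofAdd (shR s)) : Equiv.Perm ℂ) ((h : Equiv.Perm ℂ) z)
  rw [sumFlow_apply, sumFlow_apply]
  rcases lt_or_ge 1 (z⁻¹).re with h1 | h1
  · have h2 := W_re_gt hφ s.1 h1
    rw [hh z h1, hh _ (by rwa [inv_inv]), inv_inv, inv_inv, W_shR hφ]
  · rw [W_of_re hφ s.1 (by linarith), inv_inv, W_shR_zero hφ s, inv_inv]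
    intro k hk
    have h2 : InS (((h : Equiv.Perm ℂ) z)⁻¹ - 4 - 4 * k) := by
      have e : ((h : Equiv.Perm ℂ) z)⁻¹ - 4 - 4 * k =
          ((h : Equiv.Perm ℂ) z)⁻¹ - 4 * ((k + 1 : ℕ) : ℂ) := by push_cast; ring
      rw [e]; exact hk
    have h3 := InS_re_gt k h2
    have h4 : (0 : ℝ) ≤ k := Nat.cast_nonneg k
    have h5 := hh (((h : Equiv.Perm ℂ) z)⁻¹ - 4)⁻¹ (by rw [inv_inv]; linarith)
    rw [inv_inv, sub_add_cancel, inv_inv] at h5
    have h6 := (h : Equiv.Perm ℂ).injective h5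
    rw [← h6, inv_inv] at h1
    linarith

theorem W_comm (hφ : NFlow φ) (hψ : NFlow ψ)
    (hcomm : ∀ s t z, φ s (ψ t z) = ψ t (φ s z)) (s t : ℕ → ℝ) (w : ℂ) :
    W φ s (W ψ t w) = W ψ t (W φ s w) := by
  by_cases hk : ∃ k : ℕ, InS (w - 4 * k)
  · obtain ⟨k, hk⟩ := hk
    rw [W_in hφ s k (W_mem hψ t k hk), W_in hψ t k (W_mem hφ s k hk), W_in hφ s k hk,
      W_in hψ t k hk, add_sub_cancel_left, add_sub_cancel_left]
    unfold Tf
    rw [inv_inv, inv_inv, hcomm]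
  · push Not at hk
    rw [W_out hψ t hk, W_out hφ s hk, W_out hψ t hk]

theorem sumFlow_comm (hφ : NFlow φ) (hψ : NFlow ψ)
    (hcomm : ∀ s t z, φ s (ψ t z) = ψ t (φ s z)) (s t : Dec) :
    sumFlow hφ (Multiplicative.ofAdd s) * sumFlow hψ (Multiplicative.ofAdd t) =
      sumFlow hψ (Multiplicative.ofAdd t) * sumFlow hφ (Multiplicative.ofAdd s) := by
  apply Subtype.ext
  apply Equiv.ext
  intro z
  change (sumFlow hφ (Multiplicative.ofAdd s) : Equiv.Perm ℂ)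
      ((sumFlow hψ (Multiplicative.ofAdd t) : Equiv.Perm ℂ) z) =
    (sumFlow hψ (Multiplicative.ofAdd t) : Equiv.Perm ℂ)
      ((sumFlow hφ (Multiplicative.ofAdd s) : Equiv.Perm ℂ) z)
  rw [sumFlow_apply, sumFlow_apply, sumFlow_apply, sumFlow_apply, inv_inv, inv_inv,
    W_comm hφ hψ hcomm]

theorem sumFlow_shR_fix (hφ : NFlow φ) (s : Dec) (z : ℂ) (hz : z ∈ Metric.ball (1 / 2 : ℂ) (3 / 10)) :
    (sumFlow hφ (Multiplicative.ofAdd (shR s)) : Equiv.Perm ℂ) z = z := by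
  rw [sumFlow_apply, W_shR_zero hφ s, inv_inv]
  intro k hk
  have h1 := InS_re_gt (k + 1) hk
  have h2 : (0 : ℝ) ≤ k := Nat.cast_nonneg k
  have h3 : 16 / 3 < (z⁻¹).re := by push_cast at h1; linarith
  rw [Metric.mem_ball, dist_eq_norm] at hz
  have h4 : 1 / 5 < z.re := by
    have h5 := (abs_le.1 (Complex.abs_re_le_norm (z - 1 / 2))).1
    have e1 : (z - 1 / 2).re = z.re - 1 / 2 := by simp
    rw [e1] at h5
    linarith
  have hz0 : z ≠ 0 := by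
    rintro rfl
    rw [Complex.zero_re] at h4
    linarith
  have hn : 0 < Complex.normSq z := Complex.normSq_pos.2 hz0
  rw [Complex.inv_re, lt_div_iff₀ hn, Complex.normSq_apply] at h3
  nlinarith [mul_self_nonneg z.im]

end Pool.Agent.H27F
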